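import Mathlib

namespace Flag80

/-- The smallest of three numbers. -/
def lo3 (x y z : ℕ) : ℕ := min x (min y z)

/-- The largest of three numbers. -/
def hi3 (x y z : ℕ) : ℕ := max x (max y z)

/-- The middle one of three numbers. -/
def mid3 (x y z : ℕ) : ℕ := x + y + z - lo3 x y z - hi3 x y z

/-- The condition on sorted leg lengths. -/
def Q (a b c : ℕ) : Prop :=
  ((a = 0 ∨ a + 2 ≤ b) ∧ 3 ∣ b + c - a) ∨ (a = b ∧ 2 ≤ a ∧ 3 ∣ c + 1) ∨
    (a = 1 ∧ b = 1 ∧ c ≠ 2 ∧ 3 ∣ c)

/-- The losing triples. -/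
def P (x y z : ℕ) : Prop := Q (lo3 x y z) (mid3 x y z) (hi3 x y z)

theorem P_swap12 (x y z : ℕ) : P x y z ↔ P y x z := by
  have h1 : lo3 x y z = lo3 y x z := by unfold lo3; omega
  have h2 : hi3 x y z = hi3 y x z := by unfold hi3; omega
  have h3 : mid3 x y z = mid3 y x z := by unfold mid3; rw [h1, h2]; omega
  unfold P; rw [h1, h2, h3]

theorem P_swap23 (x y z : ℕ) : P x y z ↔ P x z y := by
  have h1 : lo3 x y z = lo3 x z y := by unfold lo3; omega
  have h2 : hi3 x y z = hi3 x z y := by unfold hi3; omega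
  have h3 : mid3 x y z = mid3 x z y := by unfold mid3; rw [h1, h2]; omega
  unfold P; rw [h1, h2, h3]

theorem P_sorted (a b c : ℕ) (h1 : a ≤ b) (h2 : b ≤ c) : P a b c ↔ Q a b c := by
  have e1 : lo3 a b c = a := by unfold lo3; omega
  have e2 : hi3 a b c = c := by unfold hi3; omega
  have e3 : mid3 a b c = b := by unfold mid3; rw [e1, e2]; omega
  unfold P; rw [e1, e2, e3]

theorem Q_lo (a s b c : ℕ) (hs : s = 1 ∨ s = 2) (h1 : a + s ≤ b) (h2 : b ≤ c)
    (h : Q (a + s) b c) : ¬ Q a b c := by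
  intro h'
  rcases h with h | h | h <;> rcases h' with h' | h' | h' <;> rcases hs with rfl | rfl <;> omega

theorem Q_mid (a s b c : ℕ) (hs : s = 1 ∨ s = 2) (h1 : a ≤ b) (h2 : b + s ≤ c)
    (h : Q a (b + s) c) : ¬ Q a b c := by
  intro h'
  rcases h with h | h | h <;> rcases h' with h' | h' | h' <;> rcases hs with rfl | rfl <;> omega

theorem Q_mid' (a s b c : ℕ) (hs : s = 1 ∨ s = 2) (h0 : b ≤ a) (h1 : a ≤ b + s) (h2 : b + s ≤ c)
    (h : Q a (b + s) c) : ¬ Q b a c := by
  intro h'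
  rcases h with h | h | h <;> rcases h' with h' | h' | h' <;> rcases hs with rfl | rfl <;> omega

theorem Q_hi (a s b c : ℕ) (hs : s = 1 ∨ s = 2) (h1 : a ≤ b) (h2 : b ≤ c)
    (h : Q a b (c + s)) : ¬ Q a b c := by
  intro h'
  rcases h with h | h | h <;> rcases h' with h' | h' | h' <;> rcases hs with rfl | rfl <;> omega

theorem Q_hi' (a s b c : ℕ) (hs : s = 1 ∨ s = 2) (h1 : a ≤ c) (h0 : c ≤ b) (h2 : b ≤ c + s)
    (h : Q a b (c + s)) : ¬ Q a c b := by
  intro h'
  rcases h with h | h | h <;> rcases h' with h' | h' | h' <;> rcases hs with rfl | rfl <;> omega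

theorem Q_hi'' (a s b c : ℕ) (hs : s = 1 ∨ s = 2) (h1 : c ≤ a) (h0 : a ≤ b) (h2 : b ≤ c + s)
    (h : Q a b (c + s)) : ¬ Q c a b := by
  intro h'
  rcases h with h | h | h <;> rcases h' with h' | h' | h' <;> rcases hs with rfl | rfl <;> omega

theorem Q_all (a b c : ℕ) (h1 : a ≤ b) (h2 : b ≤ c) (h3 : 1 ≤ c)
    (h : Q a b c) : ¬ Q (a - 1) (b - 1) (c - 1) := by
  intro h'
  rcases Nat.eq_zero_or_pos a with ha | ha
  · subst ha
    rcases Nat.eq_zero_or_pos b with hb | hb
    · subst hb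
      rcases h with h | h | h <;> rcases h' with h' | h' | h' <;> omega
    · rcases h with h | h | h <;> rcases h' with h' | h' | h' <;> omega
  · rcases h with h | h | h <;> rcases h' with h' | h' | h' <;> omega

/-- one leg shortened by one or two, the other legs sorted -/
theorem alphaA' (x' s y z : ℕ) (hs : s = 1 ∨ s = 2) (hyz : y ≤ z) (h : P (x' + s) y z) :
    ¬ P x' y z := by
  rcases Nat.le_total (x' + s) y with h1 | h1
  · rw [P_sorted _ _ _ h1 hyz] at h
    rw [P_sorted _ _ _ (by omega) hyz]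
    exact Q_lo x' s y z hs h1 hyz h
  · rcases Nat.le_total (x' + s) z with h2 | h2
    · rw [P_swap12, P_sorted _ _ _ h1 h2] at h
      rcases Nat.le_total y x' with h3 | h3
      · rw [P_swap12, P_sorted _ _ _ h3 (by omega)]
        exact Q_mid y s x' z hs h3 h2 h
      · rw [P_sorted _ _ _ h3 hyz]
        exact Q_mid' y s x' z hs h3 h1 h2 h
    · rw [P_swap12, P_swap23, P_sorted _ _ _ hyz h2] at h
      rcases Nat.le_total z x' with h3 | h3
      · rw [P_swap12, P_swap23, P_sorted _ _ _ hyz h3]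
        exact Q_hi y s z x' hs hyz h3 h
      · rcases Nat.le_total y x' with h4 | h4
        · rw [P_swap12, P_sorted _ _ _ h4 h3]
          exact Q_hi' y s z x' hs h4 h3 h2 h
        · rw [P_sorted _ _ _ h4 hyz]
          exact Q_hi'' y s z x' hs h4 hyz h2 h

/-- one leg shortened by one or two -/
theorem alphaA (x' s y z : ℕ) (hs : s = 1 ∨ s = 2) (h : P (x' + s) y z) : ¬ P x' y z := by
  rcases Nat.le_total y z with h1 | h1
  · exact alphaA' x' s y z hs h1 h
  · rw [P_swap23] at h ⊢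
    exact alphaA' x' s z y hs h1 h

theorem alphaS' (a b c : ℕ) (h1 : a ≤ b) (h2 : b ≤ c) (h3 : 1 ≤ c) (h : P a b c) :
    ¬ P (a - 1) (b - 1) (c - 1) := by
  rw [P_sorted _ _ _ h1 h2] at h
  rw [P_sorted _ _ _ (by omega) (by omega)]
  exact Q_all a b c h1 h2 h3 h

/-- All three legs shortened. -/
theorem alphaS (x y z : ℕ) (h : P x y z) (hx : 1 ≤ x ∨ 1 ≤ y ∨ 1 ≤ z) :
    ¬ P (x - 1) (y - 1) (z - 1) := by
  rcases Nat.le_total x y with h1 | h1 <;> rcases Nat.le_total y z with h2 | h2 <;>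
    rcases Nat.le_total x z with h3 | h3
  · exact alphaS' x y z h1 h2 (by omega) h
  · exact alphaS' x y z h1 h2 (by omega) h
  · rw [P_swap23] at h ⊢
    exact alphaS' x z y h3 h2 (by omega) h
  · rw [P_swap23, P_swap12] at h ⊢
    exact alphaS' z x y h3 h1 (by omega) h
  · rw [P_swap12] at h ⊢
    exact alphaS' y x z h1 h3 (by omega) h
  · rw [P_swap12, P_swap23] at h ⊢
    exact alphaS' y z x h2 h3 (by omega) h
  · rw [P_swap12] at h ⊢
    exact alphaS' y x z h1 h3 (by omega) h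
  · rw [P_swap12, P_swap23, P_swap12] at h ⊢
    exact alphaS' z y x h2 h1 (by omega) h

/-- the answers for a sorted triple -/
theorem betaSorted (a b c : ℕ) (h1 : a ≤ b) (h2 : b ≤ c) (h : ¬ P a b c) :
    (1 ≤ a ∧ P (a - 1) b c) ∨ (2 ≤ a ∧ P (a - 2) b c) ∨ (1 ≤ b ∧ P a (b - 1) c) ∨
    (2 ≤ b ∧ P a (b - 2) c) ∨ (1 ≤ c ∧ P a b (c - 1)) ∨ (2 ≤ c ∧ P a b (c - 2)) ∨
    ((1 ≤ a ∨ 1 ≤ b ∨ 1 ≤ c) ∧ P (a - 1) (b - 1) (c - 1)) := by
  rw [P_sorted a b c h1 h2] at h
  have key : (1 ≤ a ∧ Q (a - 1) b c) ∨ (2 ≤ a ∧ Q (a - 2) b c) ∨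
    (1 ≤ b ∧ a ≤ b - 1 ∧ Q a (b - 1) c) ∨ (2 ≤ b ∧ b - 2 ≤ a ∧ Q (b - 2) a c) ∨
    (1 ≤ c ∧ b ≤ c - 1 ∧ Q a b (c - 1)) ∨ (2 ≤ c ∧ b ≤ c - 2 ∧ Q a b (c - 2)) ∨
    ((1 ≤ a ∨ 1 ≤ b ∨ 1 ≤ c) ∧ Q (a - 1) (b - 1) (c - 1)) ∨
    (a = 0 ∧ b = c ∧ 1 ≤ b ∧ 3 ∣ b + (c - 1)) ∨ (a = 0 ∧ 2 ≤ c ∧ 3 ∣ b + (c - 2)) := by
    by_cases c0 : a = 0
    · subst c0
      have h' : ¬ 3 ∣ b + c := fun hd => h (Or.inl ⟨Or.inl rfl, by simpa using hd⟩)
      rcases Nat.lt_or_ge c 2 with hc | hc
      · have hc1 : c = 1 := by omega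
        have hb1 : b = 0 ∨ b = 1 := by omega
        subst hc1
        rcases hb1 with rfl | rfl
        · right; right; right; right; right; right; left
          exact ⟨by omega, Or.inl ⟨Or.inl rfl, by norm_num⟩⟩
        · right; right; right; right; right; right; left
          exact ⟨by omega, Or.inl ⟨Or.inl rfl, by norm_num⟩⟩
      · rcases (by omega : (b + c) % 3 = 1 ∨ (b + c) % 3 = 2) with r | r
        · rcases Nat.lt_or_ge b c with hbc | hbc
          · right; right; right; right; left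
            exact ⟨by omega, by omega, Or.inl ⟨Or.inl rfl, by omega⟩⟩
          · right; right; right; right; right; right; right; left
            exact ⟨rfl, by omega, by omega, by omega⟩
        · right; right; right; right; right; right; right; right
          exact ⟨rfl, by omega, by omega⟩
    · rcases (by omega : a + 2 ≤ b ∨ b = a + 1 ∨ b = a) with hab | hab | hab
      · have h' : ¬ 3 ∣ b + c - a := fun hd => h (Or.inl ⟨Or.inr hab, hd⟩)
        rcases (by omega : (b + c - a) % 3 = 1 ∨ (b + c - a) % 3 = 2) with r | r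
        · right; right; right; right; right; right; left
          exact ⟨by omega, Or.inl ⟨by omega, by omega⟩⟩
        · left
          exact ⟨by omega, Or.inl ⟨by omega, by omega⟩⟩
      · subst hab
        rcases (by omega : c % 3 = 1 ∨ c % 3 = 0 ∨ c % 3 = 2) with r | r | r
        · left
          exact ⟨by omega, Or.inl ⟨by omega, by omega⟩⟩
        · rcases (by omega : a = 1 ∨ 2 ≤ a) with ha | ha
          · subst ha
            right; right; left
            exact ⟨by omega, by omega, Or.inr (Or.inr ⟨rfl, rfl, by omega, by omega⟩)⟩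
          · right; left
            exact ⟨ha, Or.inl ⟨by omega, by omega⟩⟩
        · rcases (by omega : a = 1 ∨ 2 ≤ a) with ha | ha
          · subst ha
            right; right; right; left
            exact ⟨by omega, by omega, Or.inl ⟨by omega, by omega⟩⟩
          · right; right; left
            exact ⟨by omega, by omega, Or.inr (Or.inl ⟨rfl, ha, by omega⟩)⟩
      · have hab' : a = b := hab.symm
        subst hab'
        rcases (by omega : a = 1 ∨ 2 ≤ a) with ha | ha
        · subst ha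
          have h' : c = 2 ∨ ¬ 3 ∣ c := by
            by_contra hcon
            push_neg at hcon
            exact h (Or.inr (Or.inr ⟨rfl, rfl, hcon.1, hcon.2⟩))
          rcases (by omega : c = 1 ∨ c = 2 ∨ (4 ≤ c ∧ c % 3 = 1) ∨ (5 ≤ c ∧ c % 3 = 2)) with r | r | r | r
          · subst r
            right; right; right; right; right; right; left
            exact ⟨by omega, Or.inl ⟨Or.inl rfl, by norm_num⟩⟩
          · subst r
            left
            exact ⟨by omega, Or.inl ⟨Or.inl rfl, by norm_num⟩⟩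
          · right; right; right; right; left
            exact ⟨by omega, by omega, Or.inr (Or.inr ⟨rfl, rfl, by omega, by omega⟩)⟩
          · right; right; right; right; right; left
            exact ⟨by omega, by omega, Or.inr (Or.inr ⟨rfl, rfl, by omega, by omega⟩)⟩
        · have h' : ¬ 3 ∣ c + 1 := fun hd => h (Or.inr (Or.inl ⟨rfl, ha, hd⟩))
          rcases (by omega : (c % 3 = 0 ∧ a < c) ∨ (c % 3 = 0 ∧ a = c) ∨ (c % 3 = 1 ∧ a + 2 ≤ c) ∨
            (c % 3 = 1 ∧ (a = c ∨ a + 1 = c))) with r | r | r | r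
          · right; right; right; right; left
            exact ⟨by omega, by omega, Or.inr (Or.inl ⟨rfl, ha, by omega⟩)⟩
          · right; right; right; right; right; right; left
            exact ⟨by omega, Or.inr (Or.inl ⟨rfl, by omega, by omega⟩)⟩
          · right; right; right; right; right; left
            exact ⟨by omega, by omega, Or.inr (Or.inl ⟨rfl, ha, by omega⟩)⟩
          · right; left
            exact ⟨ha, Or.inl ⟨by omega, by omega⟩⟩
  rcases key with k | k | k | k | k | k | k | k | k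
  · left; exact ⟨k.1, (P_sorted _ _ _ (by omega) h2).2 k.2⟩
  · right; left; exact ⟨k.1, (P_sorted _ _ _ (by omega) h2).2 k.2⟩
  · right; right; left; exact ⟨k.1, (P_sorted _ _ _ k.2.1 (by omega)).2 k.2.2⟩
  · right; right; right; left
    refine ⟨k.1, (P_swap12 _ _ _).2 ((P_sorted _ _ _ k.2.1 (by omega)).2 k.2.2)⟩
  · right; right; right; right; left; exact ⟨k.1, (P_sorted _ _ _ h1 k.2.1).2 k.2.2⟩
  · right; right; right; right; right; left; exact ⟨k.1, (P_sorted _ _ _ h1 k.2.1).2 k.2.2⟩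
  · right; right; right; right; right; right
    exact ⟨k.1, (P_sorted _ _ _ (by omega) (by omega)).2 k.2⟩
  · right; right; right; right; left
    refine ⟨by omega, ?_⟩
    unfold P Q mid3 lo3 hi3
    omega
  · right; right; right; right; right; left
    refine ⟨by omega, ?_⟩
    unfold P Q mid3 lo3 hi3
    omega

/-- The player to move at the triple can move to a losing triple. -/
def Ans (x y z : ℕ) : Prop :=
  (∃ x', (x = x' + 1 ∨ x = x' + 2) ∧ P x' y z) ∨ (∃ y', (y = y' + 1 ∨ y = y' + 2) ∧ P x y' z) ∨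
    (∃ z', (z = z' + 1 ∨ z = z' + 2) ∧ P x y z') ∨
    ((1 ≤ x ∨ 1 ≤ y ∨ 1 ≤ z) ∧ P (x - 1) (y - 1) (z - 1))

theorem Ans_swap12 {x y z : ℕ} (h : Ans x y z) : Ans y x z := by
  rcases h with ⟨x', h, h'⟩ | ⟨y', h, h'⟩ | ⟨z', h, h'⟩ | ⟨h, h'⟩
  · exact Or.inr (Or.inl ⟨x', h, (P_swap12 _ _ _).1 h'⟩)
  · exact Or.inl ⟨y', h, (P_swap12 _ _ _).1 h'⟩
  · exact Or.inr (Or.inr (Or.inl ⟨z', h, (P_swap12 _ _ _).1 h'⟩))
  · exact Or.inr (Or.inr (Or.inr ⟨by omega, (P_swap12 _ _ _).1 h'⟩))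

theorem Ans_swap23 {x y z : ℕ} (h : Ans x y z) : Ans x z y := by
  rcases h with ⟨x', h, h'⟩ | ⟨y', h, h'⟩ | ⟨z', h, h'⟩ | ⟨h, h'⟩
  · exact Or.inl ⟨x', h, (P_swap23 _ _ _).1 h'⟩
  · exact Or.inr (Or.inr (Or.inl ⟨y', h, (P_swap23 _ _ _).1 h'⟩))
  · exact Or.inr (Or.inl ⟨z', h, (P_swap23 _ _ _).1 h'⟩)
  · exact Or.inr (Or.inr (Or.inr ⟨by omega, (P_swap23 _ _ _).1 h'⟩))

theorem ans_sorted {a b c : ℕ} (h1 : a ≤ b) (h2 : b ≤ c) (h : ¬ P a b c) : Ans a b c := by
  rcases betaSorted a b c h1 h2 h with k | k | k | k | k | k | k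
  · exact Or.inl ⟨a - 1, by omega, k.2⟩
  · exact Or.inl ⟨a - 2, by omega, k.2⟩
  · exact Or.inr (Or.inl ⟨b - 1, by omega, k.2⟩)
  · exact Or.inr (Or.inl ⟨b - 2, by omega, k.2⟩)
  · exact Or.inr (Or.inr (Or.inl ⟨c - 1, by omega, k.2⟩))
  · exact Or.inr (Or.inr (Or.inl ⟨c - 2, by omega, k.2⟩))
  · exact Or.inr (Or.inr (Or.inr ⟨k.1, k.2⟩))

theorem ans_all (x y z : ℕ) (h : ¬ P x y z) : Ans x y z := by
  rcases Nat.le_total x y with h1 | h1
  · rcases Nat.le_total y z with h2 | h2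
    · exact ans_sorted h1 h2 h
    · rcases Nat.le_total x z with h3 | h3
      · rw [P_swap23] at h
        exact Ans_swap23 (ans_sorted h3 h2 h)
      · rw [P_swap23, P_swap12] at h
        exact Ans_swap23 (Ans_swap12 (ans_sorted h3 h1 h))
  · rcases Nat.le_total x z with h3 | h3
    · rw [P_swap12] at h
      exact Ans_swap12 (ans_sorted h1 h3 h)
    · rcases Nat.le_total y z with h2 | h2
      · rw [P_swap12, P_swap23] at h
        exact Ans_swap12 (Ans_swap23 (ans_sorted h2 h3 h))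
      · rw [P_swap12, P_swap23, P_swap12] at h
        exact Ans_swap12 (Ans_swap23 (Ans_swap12 (ans_sorted h2 h1 h)))

end Flag80
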