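import Pool.Agent.Flag80.Game
import Pool.Agent.Flag80.Arith

namespace Flag80

section count

variable {ι : Type} {L : ι → ℕ} {χ : SV L → ℕ} {v : SV L} {c' : ℕ}

theorem mem_bich_recolour (h2 : ∀ x, χ x = χ v ∨ χ x = c') {i : ι} {t : ℕ} :
    t ∈ bich L (recolour (spider L) χ v c') i ↔ t ∈ bich L χ i ∧
      ¬ SameComp (spider L) χ v (pos L i t) ∧ ¬ SameComp (spider L) χ v (pos L i (t + 1)) := by
  rw [mem_bich, mem_bich]
  constructor
  · rintro ⟨h, h'⟩
    have := (edge_recolour h2 (adj_up h)).1 h'
    exact ⟨⟨h, this.1⟩, this.2.1, this.2.2⟩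
  · rintro ⟨⟨h, h'⟩, h3, h4⟩
    exact ⟨h, (edge_recolour h2 (adj_up h)).2 ⟨h', h3, h4⟩⟩

theorem changes_centre (h2 : ∀ x, χ x = χ v ∨ χ x = c')
    (hK : SameComp (spider L) χ v none) (j : ι) :
    changes L (recolour (spider L) χ v c') j = changes L χ j - 1 := by
  unfold changes
  rcases (bich L χ j).eq_empty_or_nonempty with he | hne
  · have : bich L (recolour (spider L) χ v c') j = ∅ := by
      apply Finset.eq_empty_of_forall_notMem
      intro t ht
      have h3 := ((mem_bich_recolour h2).1 ht).1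
      rw [he] at h3
      exact absurd h3 (Finset.notMem_empty _)
    rw [this, he]; rfl
  · obtain ⟨m, hm⟩ : ∃ m, m = (bich L χ j).min' hne := ⟨_, rfl⟩
    have hmem : m ∈ bich L χ j := hm ▸ Finset.min'_mem _ _
    have hmle : ∀ t ∈ bich L χ j, m ≤ t := fun t ht => hm ▸ Finset.min'_le _ _ ht
    have hmL := (mem_bich.1 hmem).1
    have hKm : SameComp (spider L) χ v (pos L j m) := by
      apply walk_up (s := 0) (by omega) (by omega)
      · intro t ht h'
        have := hmle t ht
        omega
      · rw [pos_zero]; exact hK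
    have : bich L (recolour (spider L) χ v c') j = (bich L χ j).erase m := by
      ext t
      rw [mem_bich_recolour h2, Finset.mem_erase]
      constructor
      · rintro ⟨h, h3, h4⟩
        refine ⟨?_, h⟩
        rintro rfl
        exact h3 hKm
      · rintro ⟨hne', h⟩
        have hle : m ≤ t := hmle t h
        have hlt : m < t := lt_of_le_of_ne hle (Ne.symm hne')
        have htL := (mem_bich.1 h).1
        refine ⟨h, fun hk => ?_, fun hk => ?_⟩
        · have hk' : SameComp (spider L) χ none (pos L j t) :=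
            Relation.ReflTransGen.trans (sameComp_symm hK) hk
          exact centre_comp hk' j t rfl (by omega) m hlt hmem
        · have hk' : SameComp (spider L) χ none (pos L j (t + 1)) :=
            Relation.ReflTransGen.trans (sameComp_symm hK) hk
          exact centre_comp hk' j (t + 1) rfl (by omega) m (by omega) hmem
    rw [this, Finset.card_erase_of_mem hmem]

variable {i : ι} {s0 : ℕ}

theorem changes_other (h0 : 0 < s0) (hs0 : s0 ≤ L i)
    (hn : ¬ SameComp (spider L) χ (pos L i s0) none)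
    (h2 : ∀ x, χ x = χ (pos L i s0) ∨ χ x = c') {j : ι} (hj : j ≠ i) :
    changes L (recolour (spider L) χ (pos L i s0) c') j = changes L χ j := by
  unfold changes
  congr 1
  ext t
  rw [mem_bich_recolour h2]
  constructor
  · exact fun h => h.1
  · intro h
    have htL := (mem_bich.1 h).1
    refine ⟨h, fun hk => ?_, fun hk => ?_⟩
    · obtain ⟨r, hr, hrL, he, -⟩ := leg_comp h0 hs0 hn hk
      exact hj (pos_inj L hr hrL (by omega) he.symm).1.symm
    · obtain ⟨r, hr, hrL, he, -⟩ := leg_comp h0 hs0 hn hk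
      exact hj (pos_inj L hr hrL (by omega) he.symm).1.symm

/-- the last colour change before `s0` -/
theorem exists_lo (h0 : 0 < s0) (hs0 : s0 ≤ L i)
    (hn : ¬ SameComp (spider L) χ (pos L i s0) none) :
    ∃ lo ∈ bich L χ i, lo < s0 ∧ ∀ t ∈ bich L χ i, t < s0 → t ≤ lo := by
  have hne : ((bich L χ i).filter (fun t => t < s0)).Nonempty := by
    by_contra hcon
    rw [Finset.not_nonempty_iff_eq_empty] at hcon
    apply hn
    have h3 : SameComp (spider L) χ (pos L i s0) (pos L i 0) := by
      apply walk_down (s := s0) hs0 (by omega)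
      · intro t ht h'
        have : t ∈ (bich L χ i).filter (fun t => t < s0) := Finset.mem_filter.2 ⟨ht, h'.2⟩
        rw [hcon] at this
        exact absurd this (Finset.notMem_empty _)
      · exact Relation.ReflTransGen.refl
    rwa [pos_zero] at h3
  refine ⟨_, (Finset.mem_filter.1 (Finset.max'_mem _ hne)).1,
    (Finset.mem_filter.1 (Finset.max'_mem _ hne)).2, fun t ht hts => ?_⟩
  exact Finset.le_max' _ _ (Finset.mem_filter.2 ⟨ht, hts⟩)

theorem changes_leg_one (h0 : 0 < s0) (hs0 : s0 ≤ L i)
    (hn : ¬ SameComp (spider L) χ (pos L i s0) none)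
    (h2 : ∀ x, χ x = χ (pos L i s0) ∨ χ x = c') (hex : ∀ t ∈ bich L χ i, t < s0) :
    1 ≤ changes L χ i ∧
      changes L (recolour (spider L) χ (pos L i s0) c') i = changes L χ i - 1 := by
  obtain ⟨lo, hlo, hlos, hlomax⟩ := exists_lo h0 hs0 hn
  have hKlo : SameComp (spider L) χ (pos L i s0) (pos L i (lo + 1)) := by
    apply walk_down (s := s0) hs0 (by omega)
    · intro t ht h'
      have := hlomax t ht h'.2
      omega
    · exact Relation.ReflTransGen.refl
  have hB : bich L (recolour (spider L) χ (pos L i s0) c') i = (bich L χ i).erase lo := by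
    ext t
    rw [mem_bich_recolour h2, Finset.mem_erase]
    constructor
    · rintro ⟨h, h3, h4⟩
      refine ⟨?_, h⟩
      rintro rfl
      exact h4 hKlo
    · rintro ⟨hne, h⟩
      have hts := hex t h
      have htlo : t < lo := lt_of_le_of_ne (hlomax t h hts) hne
      refine ⟨h, fun hk => ?_, fun hk => ?_⟩
      · obtain ⟨r, hr, hrL, he, hT⟩ := leg_comp h0 hs0 hn hk
        have e := (pos_inj L hr hrL (by omega) he.symm).2
        subst e
        exact hT _ h (Or.inl ⟨le_refl _, hts⟩)
      · obtain ⟨r, hr, hrL, he, hT⟩ := leg_comp h0 hs0 hn hk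
        have e := (pos_inj L hr hrL (by omega) he.symm).2
        subst e
        exact hT _ hlo (Or.inl ⟨by omega, hlos⟩)
  unfold changes
  refine ⟨Finset.card_pos.2 ⟨lo, hlo⟩, ?_⟩
  rw [hB, Finset.card_erase_of_mem hlo]

theorem changes_leg_two (h0 : 0 < s0) (hs0 : s0 ≤ L i)
    (hn : ¬ SameComp (spider L) χ (pos L i s0) none)
    (h2 : ∀ x, χ x = χ (pos L i s0) ∨ χ x = c') (hex : ∃ t ∈ bich L χ i, s0 ≤ t) :
    2 ≤ changes L χ i ∧
      changes L (recolour (spider L) χ (pos L i s0) c') i = changes L χ i - 2 := by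
  obtain ⟨lo, hlo, hlos, hlomax⟩ := exists_lo h0 hs0 hn
  have hKlo : SameComp (spider L) χ (pos L i s0) (pos L i (lo + 1)) := by
    apply walk_down (s := s0) hs0 (by omega)
    · intro t ht h'
      have := hlomax t ht h'.2
      omega
    · exact Relation.ReflTransGen.refl
  have hne : ((bich L χ i).filter (fun t => s0 ≤ t)).Nonempty := by
    obtain ⟨t, ht, hts⟩ := hex
    exact ⟨t, Finset.mem_filter.2 ⟨ht, hts⟩⟩
  obtain ⟨hi, hhi, hhis, himin⟩ : ∃ hi ∈ bich L χ i, s0 ≤ hi ∧
      ∀ t ∈ bich L χ i, s0 ≤ t → hi ≤ t :=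
    ⟨_, (Finset.mem_filter.1 (Finset.min'_mem _ hne)).1,
      (Finset.mem_filter.1 (Finset.min'_mem _ hne)).2,
      fun t ht hts => Finset.min'_le _ _ (Finset.mem_filter.2 ⟨ht, hts⟩)⟩
  have hhiL := (mem_bich.1 hhi).1
  have hKhi : SameComp (spider L) χ (pos L i s0) (pos L i hi) := by
    apply walk_up (s := s0) (by omega) hhis
    · intro t ht h'
      have := himin t ht h'.1
      omega
    · exact Relation.ReflTransGen.refl
  have hB : bich L (recolour (spider L) χ (pos L i s0) c') i =
      ((bich L χ i).erase lo).erase hi := by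
    ext t
    rw [mem_bich_recolour h2, Finset.mem_erase, Finset.mem_erase]
    constructor
    · rintro ⟨h, h3, h4⟩
      refine ⟨?_, ?_, h⟩
      · rintro rfl
        exact h3 hKhi
      · rintro rfl
        exact h4 hKlo
    · rintro ⟨hne1, hne2, h⟩
      have htL := (mem_bich.1 h).1
      refine ⟨h, fun hk => ?_, fun hk => ?_⟩
      · obtain ⟨r, hr, hrL, he, hT⟩ := leg_comp h0 hs0 hn hk
        have e := (pos_inj L hr hrL (by omega) he.symm).2
        subst e
        rcases Nat.lt_or_ge r s0 with h5 | h5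
        · exact hT _ h (Or.inl ⟨le_refl _, h5⟩)
        · have h6 : hi < r := lt_of_le_of_ne (himin _ h h5) (Ne.symm hne1)
          exact hT _ hhi (Or.inr ⟨hhis, h6⟩)
      · obtain ⟨r, hr, hrL, he, hT⟩ := leg_comp h0 hs0 hn hk
        have e := (pos_inj L hr hrL (by omega) he.symm).2
        subst e
        rcases Nat.lt_or_ge t s0 with h5 | h5
        · have h6 : t < lo := lt_of_le_of_ne (hlomax t h h5) hne2
          exact hT _ hlo (Or.inl ⟨by omega, hlos⟩)
        · exact hT _ h (Or.inr ⟨h5, by omega⟩)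
  have hhi' : hi ∈ (bich L χ i).erase lo := Finset.mem_erase.2 ⟨by omega, hhi⟩
  have hcard : 1 < (bich L χ i).card := Finset.one_lt_card.2 ⟨lo, hlo, hi, hhi, by omega⟩
  unfold changes
  refine ⟨hcard, ?_⟩
  rw [hB, Finset.card_erase_of_mem hhi', Finset.card_erase_of_mem hlo]
  omega

end count

/-- The moves of the game on the numbers of colour changes. -/
def AMove {ι : Type} [DecidableEq ι] (s s' : ι → ℕ) : Prop :=
  (∃ i, 1 ≤ s i ∧ s' = Function.update s i (s i - 1)) ∨
  (∃ i, 2 ≤ s i ∧ s' = Function.update s i (s i - 2)) ∨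
  ((∃ i, 1 ≤ s i) ∧ s' = fun j => s j - 1)

theorem bisim_move {ι : Type} [DecidableEq ι] {L : ι → ℕ} {χ χ' : SV L → ℕ} {c0 c1 : ℕ}
    (hT : ∀ x, χ x = c0 ∨ χ x = c1) (hm : Move (spider L) χ χ') :
    (∀ x, χ' x = c0 ∨ χ' x = c1) ∧ AMove (changes L χ) (changes L χ') := by
  obtain ⟨v, u, ha, hne, rfl⟩ := hm
  have h2 : ∀ x, χ x = χ v ∨ χ x = χ u := by
    intro x
    rcases hT x with h | h <;> rcases hT v with h' | h' <;> rcases hT u with h'' | h'' <;>
      (rw [h, h', h''] <;> simp_all)
  refine ⟨?_, ?_⟩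
  · intro x
    unfold recolour
    split_ifs
    · exact hT u
    · exact hT x
  · by_cases hK : SameComp (spider L) χ v none
    · right; right
      refine ⟨?_, funext (fun j => changes_centre h2 hK j)⟩
      obtain ⟨i, t, ht, h' | h'⟩ := ha
      · refine ⟨i, Finset.card_pos.2 ⟨t, mem_bich.2 ⟨ht, ?_⟩⟩⟩
        rw [← h'.1, ← h'.2]; exact hne.symm
      · refine ⟨i, Finset.card_pos.2 ⟨t, mem_bich.2 ⟨ht, ?_⟩⟩⟩
        rw [← h'.1, ← h'.2]; exact hne
    · rcases exists_pos L v with hv | ⟨i, s0, h0, hs0, hv⟩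
      · exact absurd (hv ▸ Relation.ReflTransGen.refl) hK
      · subst hv
        by_cases hex : ∃ t ∈ bich L χ i, s0 ≤ t
        · right; left
          have h3 := changes_leg_two h0 hs0 hK h2 hex
          refine ⟨i, h3.1, funext (fun j => ?_)⟩
          by_cases hj : j = i
          · subst hj
            rw [Function.update_self]; exact h3.2
          · rw [Function.update_of_ne hj]; exact changes_other h0 hs0 hK h2 hj
        · left
          have hex' : ∀ t ∈ bich L χ i, t < s0 := by
            intro t ht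
            by_contra hcon
            exact hex ⟨t, ht, by omega⟩
          have h3 := changes_leg_one h0 hs0 hK h2 hex'
          refine ⟨i, h3.1, funext (fun j => ?_)⟩
          by_cases hj : j = i
          · subst hj
            rw [Function.update_self]; exact h3.2
          · rw [Function.update_of_ne hj]; exact changes_other h0 hs0 hK h2 hj

theorem bisim_real {ι : Type} [DecidableEq ι] {L : ι → ℕ} {χ : SV L → ℕ} {c0 c1 : ℕ}
    (hT : ∀ x, χ x = c0 ∨ χ x = c1) {s' : ι → ℕ} (hm : AMove (changes L χ) s') :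
    ∃ χ', Move (spider L) χ χ' ∧ changes L χ' = s' := by
  have h2 : ∀ v u : SV L, χ u ≠ χ v → ∀ x, χ x = χ v ∨ χ x = χ u := by
    intro v u hne x
    rcases hT x with h | h <;> rcases hT v with h' | h' <;> rcases hT u with h'' | h'' <;>
      (rw [h, h', h''] <;> simp_all)
  rcases hm with ⟨i, hi, rfl⟩ | ⟨i, hi, rfl⟩ | ⟨⟨i, hi⟩, rfl⟩
  · have hne : (bich L χ i).Nonempty := Finset.card_pos.1 hi
    obtain ⟨m, hm, hmax⟩ : ∃ m ∈ bich L χ i, ∀ t ∈ bich L χ i, t ≤ m :=
      ⟨_, Finset.max'_mem _ hne, fun t ht => Finset.le_max' _ _ ht⟩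
    have hmL := (mem_bich.1 hm).1
    have hc := (mem_bich.1 hm).2
    have hK : ¬ SameComp (spider L) χ (pos L i (m + 1)) none := fun hk =>
      centre_comp (sameComp_symm hk) i (m + 1) rfl (by omega) m (by omega) hm
    have hex : ∀ t ∈ bich L χ i, t < m + 1 := fun t ht => by have := hmax t ht; omega
    have h3 := changes_leg_one (by omega) (by omega) hK (h2 _ (pos L i m) hc) hex
    refine ⟨_, ⟨pos L i (m + 1), pos L i m, (adj_up hmL).symm, hc, rfl⟩, funext (fun j => ?_)⟩
    by_cases hj : j = i
    · subst hj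
      rw [Function.update_self]; exact h3.2
    · rw [Function.update_of_ne hj]
      exact changes_other (by omega) (by omega) hK (h2 _ (pos L i m) hc) hj
  · have hne : (bich L χ i).Nonempty := Finset.card_pos.1 (by unfold changes at hi; omega)
    obtain ⟨m, hm, hmin⟩ : ∃ m ∈ bich L χ i, ∀ t ∈ bich L χ i, m ≤ t :=
      ⟨_, Finset.min'_mem _ hne, fun t ht => Finset.min'_le _ _ ht⟩
    have hmL := (mem_bich.1 hm).1
    have hc := (mem_bich.1 hm).2
    have hK : ¬ SameComp (spider L) χ (pos L i (m + 1)) none := fun hk =>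
      centre_comp (sameComp_symm hk) i (m + 1) rfl (by omega) m (by omega) hm
    have hex : ∃ t ∈ bich L χ i, m + 1 ≤ t := by
      obtain ⟨a, ha, b, hb, hab⟩ := Finset.one_lt_card.1
        (show 1 < (bich L χ i).card by unfold changes at hi; omega)
      have h4 := hmin a ha
      have h5 := hmin b hb
      rcases Nat.lt_or_ge m a with h6 | h6
      · exact ⟨a, ha, h6⟩
      · exact ⟨b, hb, by omega⟩
    have h3 := changes_leg_two (by omega) (by omega) hK (h2 _ (pos L i m) hc) hex
    refine ⟨_, ⟨pos L i (m + 1), pos L i m, (adj_up hmL).symm, hc, rfl⟩, funext (fun j => ?_)⟩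
    by_cases hj : j = i
    · subst hj
      rw [Function.update_self]; exact h3.2
    · rw [Function.update_of_ne hj]
      exact changes_other (by omega) (by omega) hK (h2 _ (pos L i m) hc) hj
  · have hne : (bich L χ i).Nonempty := Finset.card_pos.1 hi
    obtain ⟨m, hm, hmin⟩ : ∃ m ∈ bich L χ i, ∀ t ∈ bich L χ i, m ≤ t :=
      ⟨_, Finset.min'_mem _ hne, fun t ht => Finset.min'_le _ _ ht⟩
    have hmL := (mem_bich.1 hm).1
    have hc := (mem_bich.1 hm).2
    have hK : SameComp (spider L) χ (pos L i m) none := by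
      have h3 : SameComp (spider L) χ (pos L i m) (pos L i 0) := by
        apply walk_down (s := m) (by omega) (by omega)
        · intro t ht h'
          have := hmin t ht
          omega
        · exact Relation.ReflTransGen.refl
      rwa [pos_zero] at h3
    exact ⟨_, ⟨pos L i m, pos L i (m + 1), adj_up hmL, hc.symm, rfl⟩,
      funext (fun j => changes_centre (h2 _ _ hc.symm) hK j)⟩

end Flag80
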