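import Pool.Agent.Flag80.PendGame

namespace Flag80

/-- The graph `G` with `X` new leaves attached at the vertex `v`. -/
def bunch {V : Type} (G : SimpleGraph V) (v : V) (X : ℕ) : SimpleGraph (V ⊕ Fin X) where
  Adj a b := (∃ y z, G.Adj y z ∧ a = Sum.inl y ∧ b = Sum.inl z) ∨
    ∃ j : Fin X, (a = Sum.inl v ∧ b = Sum.inr j) ∨ (a = Sum.inr j ∧ b = Sum.inl v)
  symm := ⟨by
    rintro a b (⟨y, z, h, ha, hb⟩ | ⟨j, h' | h'⟩)
    · exact Or.inl ⟨z, y, h.symm, hb, ha⟩
    · exact Or.inr ⟨j, Or.inr ⟨h'.2, h'.1⟩⟩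
    · exact Or.inr ⟨j, Or.inl ⟨h'.2, h'.1⟩⟩⟩
  loopless := ⟨by
    rintro a (⟨y, z, h, ha, hb⟩ | ⟨j, h' | h'⟩)
    · have e : y = z := Sum.inl.inj (ha.symm.trans hb)
      exact G.loopless.irrefl y (by rw [← e] at h; exact h)
    · exact Sum.inl_ne_inr (h'.1.symm.trans h'.2)
    · exact Sum.inr_ne_inl (h'.1.symm.trans h'.2)⟩

/-- The attached leaves whose colour is not the colour of `v`. -/
def freeSet {V : Type} (v : V) (X : ℕ) (χ : V ⊕ Fin X → ℕ) : Finset (Fin X) :=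
  Finset.univ.filter (fun j => χ (Sum.inr j) ≠ χ (Sum.inl v))

/-- The number of attached leaves whose colour is not the colour of `v`. -/
def freeLeaves {V : Type} (v : V) (X : ℕ) (χ : V ⊕ Fin X → ℕ) : ℕ := (freeSet v X χ).card

/-- The moves on pairs (colouring of `G`, number of free attached leaves). -/
def BM {V : Type} (G : SimpleGraph V) (v : V) (c0 c1 : ℕ) (s s' : (V → ℕ) × ℕ) : Prop :=
  (1 ≤ s.2 ∧ s' = (s.1, s.2 - 1)) ∨
  (∃ w u, G.Adj w u ∧ s.1 u ≠ s.1 w ∧ ¬ SameComp G s.1 w v ∧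
    s' = (recolour G s.1 w (s.1 u), s.2)) ∨
  (∃ c', (c' = c0 ∨ c' = c1) ∧ c' ≠ s.1 v ∧
    (1 ≤ s.2 ∨ ∃ w u, G.Adj w u ∧ s.1 u ≠ s.1 w ∧ SameComp G s.1 v w) ∧
    s' = (recolour G s.1 v c', 0))

/-- The pair of a colouring. -/
def bst {V : Type} (v : V) (X : ℕ) (χ : V ⊕ Fin X → ℕ) : (V → ℕ) × ℕ :=
  (fun a => χ (Sum.inl a), freeLeaves v X χ)

section bisim

variable {V : Type} {G : SimpleGraph V} {v : V} {X : ℕ} {c0 c1 : ℕ} {χ : V ⊕ Fin X → ℕ}

theorem mem_freeSet {j : Fin X} : j ∈ freeSet v X χ ↔ χ (Sum.inr j) ≠ χ (Sum.inl v) := by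
  unfold freeSet; simp

theorem badj_inl {y z : V} (h : G.Adj y z) : (bunch G v X).Adj (Sum.inl y) (Sum.inl z) :=
  Or.inl ⟨y, z, h, rfl, rfl⟩

theorem badj_leaf (j : Fin X) : (bunch G v X).Adj (Sum.inl v) (Sum.inr j) :=
  Or.inr ⟨j, Or.inl ⟨rfl, rfl⟩⟩

theorem binl_comp {w : V} {x : V ⊕ Fin X} (h : SameComp (bunch G v X) χ (Sum.inl w) x) :
    (∃ y, x = Sum.inl y ∧ SameComp G (fun a => χ (Sum.inl a)) w y) ∨
    (∃ j, x = Sum.inr j ∧ SameComp G (fun a => χ (Sum.inl a)) w v) := by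
  induction h with
  | refl => exact Or.inl ⟨w, rfl, Relation.ReflTransGen.refl⟩
  | tail _ h2 ih =>
    rename_i b c
    rcases ih with ⟨y, hb, hy⟩ | ⟨j, hb, hv⟩
    · obtain ⟨⟨y', z, hyz, h1, h3⟩ | ⟨j, h' | h'⟩, hc⟩ := h2
      · have e : y = y' := Sum.inl.inj (hb.symm.trans h1)
        subst e
        left
        refine ⟨z, h3, sameComp_tail hy hyz ?_⟩
        show χ (Sum.inl y) = χ (Sum.inl z)
        rw [← h1, ← h3]; exact hc
      · have e : y = v := Sum.inl.inj (hb.symm.trans h'.1)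
        subst e
        exact Or.inr ⟨j, h'.2, hy⟩
      · exact absurd (hb.symm.trans h'.1) Sum.inl_ne_inr
    · obtain ⟨⟨y', z, hyz, h1, h3⟩ | ⟨j', h' | h'⟩, hc⟩ := h2
      · exact absurd (hb.symm.trans h1) Sum.inr_ne_inl
      · exact absurd (hb.symm.trans h'.1) Sum.inr_ne_inl
      · exact Or.inl ⟨v, h'.2, hv⟩

theorem bcomp_inl {w y : V} (h : SameComp G (fun a => χ (Sum.inl a)) w y) :
    SameComp (bunch G v X) χ (Sum.inl w) (Sum.inl y) := by
  induction h with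
  | refl => exact Relation.ReflTransGen.refl
  | tail _ h2 ih => exact sameComp_tail ih (badj_inl h2.1) h2.2

theorem bcomp_inl_iff {w y : V} : SameComp (bunch G v X) χ (Sum.inl w) (Sum.inl y) ↔
    SameComp G (fun a => χ (Sum.inl a)) w y := by
  constructor
  · intro h
    rcases binl_comp h with ⟨y', h1, h2⟩ | ⟨j, h1, -⟩
    · have e : y = y' := Sum.inl.inj h1
      subst e; exact h2
    · exact absurd h1 Sum.inl_ne_inr
  · exact bcomp_inl

theorem bleaf_comp {j : Fin X} (hj : χ (Sum.inr j) ≠ χ (Sum.inl v)) {x : V ⊕ Fin X}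
    (h : SameComp (bunch G v X) χ (Sum.inr j) x) : x = Sum.inr j := by
  induction h with
  | refl => rfl
  | tail _ h2 ih =>
    rename_i b c
    subst ih
    obtain ⟨⟨y', z, hyz, h1, h3⟩ | ⟨j', h' | h'⟩, hc⟩ := h2
    · exact absurd h1 Sum.inr_ne_inl
    · exact absurd h'.1 Sum.inr_ne_inl
    · rw [h'.2] at hc
      exact absurd hc hj

theorem brecolour_inl (w : V) (c' : ℕ) :
    (fun a => recolour (bunch G v X) χ (Sum.inl w) c' (Sum.inl a)) =
      recolour G (fun a => χ (Sum.inl a)) w c' := by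
  funext a
  unfold recolour
  by_cases h : SameComp G (fun a => χ (Sum.inl a)) w a
  · rw [if_pos h, if_pos (bcomp_inl_iff.2 h)]
  · rw [if_neg h, if_neg (fun h' => h (bcomp_inl_iff.1 h'))]

theorem bfree_core {y : V} {c' : ℕ} (hn : ¬ SameComp G (fun a => χ (Sum.inl a)) y v) :
    freeLeaves v X (recolour (bunch G v X) χ (Sum.inl y) c') = freeLeaves v X χ := by
  unfold freeLeaves
  congr 1
  ext j
  rw [mem_freeSet, mem_freeSet]
  have h1 : ¬ SameComp (bunch G v X) χ (Sum.inl y) (Sum.inl v) := fun h =>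
    hn (bcomp_inl_iff.1 h)
  have h2 : ¬ SameComp (bunch G v X) χ (Sum.inl y) (Sum.inr j) := by
    intro h
    rcases binl_comp h with ⟨z, h3, -⟩ | ⟨j', -, h3⟩
    · exact absurd h3 Sum.inr_ne_inl
    · exact hn h3
  unfold recolour
  rw [if_neg h1, if_neg h2]

/-- the component of `v` -/
theorem bcentre {w : V} {c' : ℕ} (hK : SameComp G (fun a => χ (Sum.inl a)) v w)
    (h2 : ∀ x, χ x = χ (Sum.inl v) ∨ χ x = c') :
    bst v X (recolour (bunch G v X) χ (Sum.inl w) c') =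
      (recolour G (fun a => χ (Sum.inl a)) v c', 0) := by
  have hK' : SameComp (bunch G v X) χ (Sum.inl w) (Sum.inl v) := sameComp_symm (bcomp_inl hK)
  refine Prod.ext ?_ ?_
  · show (fun a => recolour (bunch G v X) χ (Sum.inl w) c' (Sum.inl a)) =
      recolour G (fun a => χ (Sum.inl a)) v c'
    funext a
    unfold recolour
    by_cases h : SameComp G (fun a => χ (Sum.inl a)) v a
    · rw [if_pos h, if_pos (sameComp_trans hK' (bcomp_inl h))]
    · rw [if_neg h, if_neg (fun h' => h (bcomp_inl_iff.1 (sameComp_trans (bcomp_inl hK) h')))]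
  · show freeLeaves v X _ = 0
    unfold freeLeaves
    rw [Finset.card_eq_zero, Finset.eq_empty_iff_forall_notMem]
    intro j hj
    apply mem_freeSet.1 hj
    unfold recolour
    rw [if_pos hK']
    by_cases hc : χ (Sum.inr j) = χ (Sum.inl v)
    · rw [if_pos (sameComp_tail hK' (badj_leaf j) hc.symm)]
    · split_ifs
      · rfl
      · rcases h2 (Sum.inr j) with h | h
        · exact absurd h hc
        · exact h

theorem bleaf {j : Fin X} (hj : χ (Sum.inr j) ≠ χ (Sum.inl v)) :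
    bst v X (recolour (bunch G v X) χ (Sum.inr j) (χ (Sum.inl v))) =
      ((fun a => χ (Sum.inl a)), freeLeaves v X χ - 1) := by
  have hin : ∀ a, ¬ SameComp (bunch G v X) χ (Sum.inr j) (Sum.inl a) := fun a h =>
    absurd (bleaf_comp hj h) Sum.inl_ne_inr
  refine Prod.ext ?_ ?_
  · show (fun a => recolour (bunch G v X) χ (Sum.inr j) _ (Sum.inl a)) = _
    funext a
    unfold recolour
    rw [if_neg (hin a)]
  · show freeLeaves v X _ = freeLeaves v X χ - 1
    unfold freeLeaves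
    have e : freeSet v X (recolour (bunch G v X) χ (Sum.inr j) (χ (Sum.inl v))) =
        (freeSet v X χ).erase j := by
      ext i
      rw [Finset.mem_erase, mem_freeSet, mem_freeSet]
      unfold recolour
      rw [if_neg (hin v)]
      by_cases hij : i = j
      · subst hij
        have hr : SameComp (bunch G v X) χ (Sum.inr i) (Sum.inr i) := Relation.ReflTransGen.refl
        rw [if_pos hr]
        simp
      · have hni : ¬ SameComp (bunch G v X) χ (Sum.inr j) (Sum.inr i) := fun h =>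
          hij (Sum.inr.inj (bleaf_comp hj h))
        rw [if_neg hni]
        simp [hij]
    rw [e, Finset.card_erase_of_mem (mem_freeSet.2 hj)]

theorem bbisim_move {χ' : V ⊕ Fin X → ℕ} (hT : ∀ x, χ x = c0 ∨ χ x = c1)
    (hm : Move (bunch G v X) χ χ') :
    (∀ x, χ' x = c0 ∨ χ' x = c1) ∧ BM G v c0 c1 (bst v X χ) (bst v X χ') := by
  obtain ⟨w, u, ha, hne, rfl⟩ := hm
  have h2 : ∀ x, χ x = χ w ∨ χ x = χ u := fun x => two_other (hT u) (hT w) (hT x) hne
  refine ⟨two_recolour hT w (hT u), ?_⟩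
  obtain ⟨y, z, hyz, h1, h3⟩ | ⟨j, h' | h'⟩ := ha
  · subst h1; subst h3
    by_cases hK : SameComp G (fun a => χ (Sum.inl a)) y v
    · right; right
      have hKc : χ (Sum.inl v) = χ (Sum.inl y) := sameComp_color (bcomp_inl (X := X) (v := v) hK)
      refine ⟨χ (Sum.inl z), hT _, ?_, Or.inr ⟨y, z, hyz, hne, sameComp_symm hK⟩, ?_⟩
      · show χ (Sum.inl z) ≠ χ (Sum.inl v)
        rw [hKc]; exact hne
      · exact bcentre (sameComp_symm hK) (fun x => by rw [hKc]; exact h2 x)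
    · right; left
      exact ⟨y, z, hyz, hne, hK, Prod.ext (brecolour_inl _ _) (bfree_core hK)⟩
  · obtain ⟨rfl, rfl⟩ := h'
    right; right
    refine ⟨χ (Sum.inr j), hT _, hne, Or.inl ?_, ?_⟩
    · exact Finset.card_pos.2 ⟨j, mem_freeSet.2 hne⟩
    · exact bcentre Relation.ReflTransGen.refl h2
  · obtain ⟨rfl, rfl⟩ := h'
    left
    refine ⟨Finset.card_pos.2 ⟨j, mem_freeSet.2 hne.symm⟩, ?_⟩
    exact bleaf hne.symm

theorem bbisim_real (hT : ∀ x, χ x = c0 ∨ χ x = c1) {s' : (V → ℕ) × ℕ}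
    (hm : BM G v c0 c1 (bst v X χ) s') :
    ∃ χ', Move (bunch G v X) χ χ' ∧ bst v X χ' = s' := by
  rcases hm with ⟨hi, rfl⟩ | ⟨w, u, ha, hne, hv, rfl⟩ | ⟨c', hc', hcv, hx, rfl⟩
  · obtain ⟨j, hj⟩ := Finset.card_pos.1 (show 0 < (freeSet v X χ).card from hi)
    have hj' := mem_freeSet.1 hj
    exact ⟨_, ⟨Sum.inr j, Sum.inl v, (badj_leaf j).symm, hj'.symm, rfl⟩, bleaf hj'⟩
  · exact ⟨_, ⟨Sum.inl w, Sum.inl u, badj_inl ha, hne, rfl⟩,
      Prod.ext (brecolour_inl _ _) (bfree_core hv)⟩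
  · have hcv' : c' ≠ χ (Sum.inl v) := hcv
    have h2 : ∀ x, χ x = χ (Sum.inl v) ∨ χ x = c' := fun x =>
      two_other hc' (hT _) (hT x) hcv'
    rcases hx with hx | ⟨w, u, ha, hne, hv⟩
    · obtain ⟨j, hj⟩ := Finset.card_pos.1 (show 0 < (freeSet v X χ).card from hx)
      have hj' := mem_freeSet.1 hj
      have e : χ (Sum.inr j) = c' := by
        rcases h2 (Sum.inr j) with h | h
        · exact absurd h hj'
        · exact h
      refine ⟨_, ⟨Sum.inl v, Sum.inr j, badj_leaf j, hj', rfl⟩, ?_⟩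
      rw [e]
      exact bcentre Relation.ReflTransGen.refl h2
    · have hKc : χ (Sum.inl w) = χ (Sum.inl v) := sameComp_color (bcomp_inl (X := X) (v := v) hv)
      have hne' : χ (Sum.inl u) ≠ χ (Sum.inl w) := hne
      have e : χ (Sum.inl u) = c' := by
        rcases h2 (Sum.inl u) with h | h
        · exact absurd (h.trans hKc.symm) hne'
        · exact h
      refine ⟨_, ⟨Sum.inl w, Sum.inl u, badj_inl ha, hne, rfl⟩, ?_⟩
      rw [e]
      exact bcentre hv h2

end bisim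

/-- The player to move wins the game on pairs. -/
inductive BWins {V : Type} (G : SimpleGraph V) (v : V) (c0 c1 : ℕ) : (V → ℕ) × ℕ → Prop
  | intro (s s' : (V → ℕ) × ℕ) : BM G v c0 c1 s s' →
      (∀ s'', BM G v c0 c1 s' s'' → BWins G v c0 c1 s'') → BWins G v c0 c1 s

section transfer

variable {V : Type} {G : SimpleGraph V} {v : V} {X : ℕ} {c0 c1 : ℕ}

theorem bwins_of_wins {χ : V ⊕ Fin X → ℕ} (h : Wins (bunch G v X) χ)
    (hT : ∀ x, χ x = c0 ∨ χ x = c1) : BWins G v c0 c1 (bst v X χ) := by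
  induction h with
  | intro χ χ' hm _ ih =>
    obtain ⟨hT', hA⟩ := bbisim_move (G := G) hT hm
    refine BWins.intro _ _ hA (fun s'' hs'' => ?_)
    obtain ⟨χ'', hm'', rfl⟩ := bbisim_real hT' hs''
    exact ih χ'' hm'' (bbisim_move (G := G) hT' hm'').1

theorem wins_of_bwins {s : (V → ℕ) × ℕ} (h : BWins G v c0 c1 s) :
    ∀ χ : V ⊕ Fin X → ℕ, (∀ x, χ x = c0 ∨ χ x = c1) → bst v X χ = s → Wins (bunch G v X) χ := by
  induction h with
  | intro s s' hA _ ih =>
    intro χ hT hs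
    subst hs
    obtain ⟨χ', hm, rfl⟩ := bbisim_real hT hA
    have hT' := (bbisim_move (G := G) hT hm).1
    refine Wins.intro _ _ hm (fun χ'' hm'' => ?_)
    obtain ⟨hT'', hA''⟩ := bbisim_move (G := G) hT' hm''
    exact ih _ hA'' χ'' hT'' rfl

theorem bwins_iff {χ : V ⊕ Fin X → ℕ} (hT : ∀ x, χ x = c0 ∨ χ x = c1) :
    Wins (bunch G v X) χ ↔ BWins G v c0 c1 (bst v X χ) :=
  ⟨fun h => bwins_of_wins h hT, fun h => wins_of_bwins h χ hT rfl⟩

end transfer

section rank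

variable {V : Type} [Finite V] {G : SimpleGraph V} {v : V} {c0 c1 : ℕ}

theorem BM_measure {s s' : (V → ℕ) × ℕ} (hT : ∀ x, s.1 x = c0 ∨ s.1 x = c1)
    (h : BM G v c0 c1 s s') :
    (∀ x, s'.1 x = c0 ∨ s'.1 x = c1) ∧ bichrom G s'.1 + s'.2 < bichrom G s.1 + s.2 := by
  rcases h with ⟨h1, rfl⟩ | ⟨w, u, ha, hne, hv, rfl⟩ | ⟨c', hc', hcv, hx, rfl⟩
  · exact ⟨hT, by show bichrom G s.1 + (s.2 - 1) < _; omega⟩
  · refine ⟨two_recolour hT w (hT u), ?_⟩
    have := bichrom_lt (G := G) (w := w) (fun x => two_other (hT u) (hT w) (hT x) hne) ha hne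
      Relation.ReflTransGen.refl
    show bichrom G (recolour G s.1 w (s.1 u)) + s.2 < _
    omega
  · refine ⟨two_recolour hT v hc', ?_⟩
    have h2 : ∀ x, s.1 x = s.1 v ∨ s.1 x = c' := fun x => two_other hc' (hT v) (hT x) hcv
    show bichrom G (recolour G s.1 v c') + 0 < _
    rcases hx with hx | ⟨w, u, ha, hne, hw⟩
    · have := bichrom_le (G := G) h2
      omega
    · have := bichrom_lt (G := G) h2 ha hne hw
      omega

theorem bdetermined : ∀ (n : ℕ) (s : (V → ℕ) × ℕ), (∀ x, s.1 x = c0 ∨ s.1 x = c1) →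
    bichrom G s.1 + s.2 = n →
    (¬ BWins G v c0 c1 s ↔ ∀ s', BM G v c0 c1 s s' → BWins G v c0 c1 s') := by
  intro n
  induction n using Nat.strong_induction_on with
  | _ n ih =>
    intro s hT hn
    constructor
    · intro hs s' hA
      obtain ⟨hT', hlt⟩ := BM_measure hT hA
      by_contra hs'
      exact hs (BWins.intro s s' hA ((ih _ (hn ▸ hlt) s' hT' rfl).1 hs'))
    · rintro hall ⟨_, s', hA, hs'⟩
      obtain ⟨hT', hlt⟩ := BM_measure hT hA
      exact (ih _ (hn ▸ hlt) s' hT' rfl).2 hs' (hall s' hA)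

theorem bwins_step {s : (V → ℕ) × ℕ} (hT : ∀ x, s.1 x = c0 ∨ s.1 x = c1) :
    BWins G v c0 c1 s ↔ ∃ s', BM G v c0 c1 s s' ∧ ¬ BWins G v c0 c1 s' := by
  have h := bdetermined (G := G) (v := v) (c0 := c0) (c1 := c1) _ s hT rfl
  constructor
  · intro hs
    by_contra hcon
    apply h.2 _ hs
    intro s' hA
    by_contra hs'
    exact hcon ⟨s', hA, hs'⟩
  · rintro ⟨s', hA, hs'⟩
    by_contra hs
    exact hs' (h.1 hs s' hA)

theorem bloses_iff {X : ℕ} {χ : V ⊕ Fin X → ℕ} (hT : ∀ x, χ x = c0 ∨ χ x = c1) :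
    Loses (bunch G v X) χ ↔ ¬ Wins (bunch G v X) χ := by
  rw [bwins_iff hT, bdetermined (G := G) (v := v) (c0 := c0) (c1 := c1) _ (bst v X χ)
    (fun x => hT (Sum.inl x)) rfl]
  constructor
  · intro h s' hA
    obtain ⟨χ', hm, rfl⟩ := bbisim_real hT hA
    exact (bwins_iff (bbisim_move (G := G) hT hm).1).1 (h χ' hm)
  · intro h χ' hm
    obtain ⟨hT', hA⟩ := bbisim_move (G := G) hT hm
    exact (bwins_iff hT').2 (h _ hA)

theorem bbase {κ : V → ℕ} (hT : ∀ y, κ y = c0 ∨ κ y = c1) (hb : bichrom G κ = 0)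
    (hcc : c0 ≠ c1) (x : ℕ) : BWins G v c0 c1 (κ, x) ↔ 1 ≤ x := by
  have none0 : ∀ κ' : V → ℕ, (∀ y, κ' y = c0 ∨ κ' y = c1) → bichrom G κ' = 0 →
      ¬ BWins G v c0 c1 (κ', 0) := by
    intro κ' hT' hb' h
    obtain ⟨s', hA, -⟩ := (bwins_step (s := (κ', 0)) hT').1 h
    rcases hA with ⟨h1, -⟩ | ⟨w, u, ha, hne, -⟩ | ⟨c', -, -, hx, -⟩
    · exact absurd h1 (by show ¬ (1 ≤ 0); omega)
    · exact hne (no_bich hb' ha.symm)
    · rcases hx with h1 | ⟨w, u, ha, hne, -⟩
      · exact absurd h1 (by show ¬ (1 ≤ 0); omega)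
      · exact hne (no_bich hb' ha.symm)
  constructor
  · intro h
    by_contra hx
    have : x = 0 := by omega
    subst this
    exact none0 κ hT hb h
  · intro hx
    obtain ⟨c', hc', hcv⟩ : ∃ c', (c' = c0 ∨ c' = c1) ∧ c' ≠ κ v := by
      rcases hT v with h | h
      · exact ⟨c1, Or.inr rfl, by rw [h]; exact hcc.symm⟩
      · exact ⟨c0, Or.inl rfl, by rw [h]; exact hcc⟩
    refine (bwins_step (s := (κ, x)) hT).2 ⟨_, Or.inr (Or.inr ⟨c', hc', hcv, Or.inl hx, rfl⟩), ?_⟩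
    apply none0 _ (two_recolour hT v hc')
    have := bichrom_le (G := G) (κ := κ) (w := v) (c' := c')
      (fun y => two_other hc' (hT v) (hT y) hcv)
    show bichrom G (recolour G κ v c') = 0
    omega

theorem bperiod (hcc : c0 ≠ c1) : ∀ (e : ℕ) (κ : V → ℕ),
    (∀ y, κ y = c0 ∨ κ y = c1) → bichrom G κ = e →
    ∀ x, e + 1 ≤ x → (BWins G v c0 c1 (κ, x + 2) ↔ BWins G v c0 c1 (κ, x)) := by
  intro e
  induction e using Nat.strong_induction_on with
  | _ e ih =>
    intro κ hT he x hx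
    rcases Nat.eq_zero_or_pos e with h0 | h0
    · subst h0
      rw [bbase hT he hcc, bbase hT he hcc]
      omega
    · -- the options
      have step : ∀ y, 1 ≤ y → (BWins G v c0 c1 (κ, y) ↔ ¬ BWins G v c0 c1 (κ, y - 1) ∨
          (∃ w u, G.Adj w u ∧ κ u ≠ κ w ∧ ¬ SameComp G κ w v ∧
            ¬ BWins G v c0 c1 (recolour G κ w (κ u), y)) ∨
          (∃ c', (c' = c0 ∨ c' = c1) ∧ c' ≠ κ v ∧
            ¬ BWins G v c0 c1 (recolour G κ v c', 0))) := by
        intro y hy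
        rw [bwins_step (s := (κ, y)) hT]
        constructor
        · rintro ⟨s', hA, hs'⟩
          rcases hA with ⟨-, rfl⟩ | ⟨w, u, ha, hne, hv, rfl⟩ | ⟨c', hc', hcv, -, rfl⟩
          · exact Or.inl hs'
          · exact Or.inr (Or.inl ⟨w, u, ha, hne, hv, hs'⟩)
          · exact Or.inr (Or.inr ⟨c', hc', hcv, hs'⟩)
        · rintro (h | ⟨w, u, ha, hne, hv, h⟩ | ⟨c', hc', hcv, h⟩)
          · exact ⟨_, Or.inl ⟨hy, rfl⟩, h⟩
          · exact ⟨_, Or.inr (Or.inl ⟨w, u, ha, hne, hv, rfl⟩), h⟩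
          · exact ⟨_, Or.inr (Or.inr ⟨c', hc', hcv, Or.inl hy, rfl⟩), h⟩
      have core : ∀ y, e ≤ y → ∀ w u, G.Adj w u → κ u ≠ κ w →
          (BWins G v c0 c1 (recolour G κ w (κ u), y + 2) ↔
            BWins G v c0 c1 (recolour G κ w (κ u), y)) := by
        intro y hy w u ha hne
        have hlt := bichrom_lt (G := G) (w := w) (c' := κ u)
          (fun y => two_other (hT u) (hT w) (hT y) hne) ha hne Relation.ReflTransGen.refl
        exact ih _ (he ▸ hlt) _ (two_recolour hT w (hT u)) rfl y (by omega)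
      have persist : ∀ y, e ≤ y → ¬ BWins G v c0 c1 (κ, y) → ¬ BWins G v c0 c1 (κ, y + 2) := by
        intro y hy hn h2
        have w1 : BWins G v c0 c1 (κ, y + 1) := (step (y + 1) (by omega)).2 (Or.inl hn)
        rcases (step (y + 2) (by omega)).1 h2 with h | ⟨w, u, ha, hne, hv, h⟩ | h
        · exact h w1
        · exact hn ((step y (by omega)).2 (Or.inr (Or.inl ⟨w, u, ha, hne, hv,
            fun h' => h ((core y hy w u ha hne).2 h')⟩)))
        · exact hn ((step y (by omega)).2 (Or.inr (Or.inr h)))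
      constructor
      · intro h2
        by_contra hn
        exact persist x (by omega) hn h2
      · intro hw
        by_contra hn
        have w1 : BWins G v c0 c1 (κ, x + 1) := by
          by_contra hcon
          exact hn ((step (x + 2) (by omega)).2 (Or.inl hcon))
        rcases (step x (by omega)).1 hw with h | ⟨w, u, ha, hne, hv, h⟩ | h
        · have h4 := persist (x - 1) (by omega) h
          have e1 : x - 1 + 2 = x + 1 := by omega
          rw [e1] at h4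
          exact h4 w1
        · exact hn ((step (x + 2) (by omega)).2 (Or.inr (Or.inl ⟨w, u, ha, hne, hv,
            fun h' => h ((core x (by omega) w u ha hne).1 h')⟩)))
        · exact hn ((step (x + 2) (by omega)).2 (Or.inr (Or.inr h)))

end rank

end Flag80
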