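import Mathlib

namespace Flag80

/-- `v` and `w` lie in the same component of the subgraph induced by one colour: there is a path
from `v` to `w` all of whose edges join vertices of equal colour. -/
def SameComp {V : Type*} (G : SimpleGraph V) (χ : V → ℕ) (v w : V) : Prop :=
  Relation.ReflTransGen (fun x y => G.Adj x y ∧ χ x = χ y) v w

open Classical in
/-- Recolour with `c'` every vertex of the monochromatic component of `v`. -/
noncomputable def recolour {V : Type*} (G : SimpleGraph V) (χ : V → ℕ) (v : V) (c' : ℕ) : V → ℕ :=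
  fun w => if SameComp G χ v w then c' else χ w

/-- A move of the game: choose a vertex `v` and a neighbour `u` of another colour; the component
of `v` gets the colour of `u`. -/
def Move {V : Type*} (G : SimpleGraph V) (χ χ' : V → ℕ) : Prop :=
  ∃ v u, G.Adj v u ∧ χ u ≠ χ v ∧ χ' = recolour G χ v (χ u)

/-- The player to move wins (normal play: a player without a legal move loses): there is a move
after which every answer of the opponent leads to a position that the player to move wins. -/
inductive Wins {V : Type*} (G : SimpleGraph V) : (V → ℕ) → Prop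
  | intro (χ χ' : V → ℕ) : Move G χ χ' → (∀ χ'', Move G χ' χ'' → Wins G χ'') → Wins G χ

/-- The player to move loses: every move leads to a position that the player to move wins. -/
def Loses {V : Type*} (G : SimpleGraph V) (χ : V → ℕ) : Prop :=
  ∀ χ', Move G χ χ' → Wins G χ'

/-- The vertices of the spider with legs of lengths `L i`: the centre `none` and, on leg `i`, the
`L i` vertices `some ⟨i, j⟩`. -/
abbrev SV {ι : Type} (L : ι → ℕ) : Type := Option (Σ i : ι, Fin (L i))

/-- The vertex at distance `t` from the centre on leg `i` (for `t = 0` the centre). -/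
def pos {ι : Type} (L : ι → ℕ) (i : ι) (t : ℕ) : SV L :=
  if h : 0 < t ∧ t ≤ L i then some ⟨i, ⟨t - 1, by omega⟩⟩ else none

theorem pos_zero {ι : Type} (L : ι → ℕ) (i : ι) : pos L i 0 = none := by
  unfold pos; simp

theorem pos_inj {ι : Type} (L : ι → ℕ) {i j : ι} {t s : ℕ} (ht : 0 < t) (ht' : t ≤ L i)
    (hs : s ≤ L j) (h : pos L i t = pos L j s) : i = j ∧ t = s := by
  unfold pos at h
  rw [dif_pos ⟨ht, ht'⟩] at h
  split_ifs at h with h2
  rw [Option.some.injEq, Sigma.mk.injEq] at h
  obtain ⟨h3, h4⟩ := h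
  subst h3
  have h5 := eq_of_heq h4
  rw [Fin.mk.injEq] at h5
  exact ⟨rfl, by omega⟩

theorem pos_ne {ι : Type} (L : ι → ℕ) {i : ι} {t : ℕ} (ht : 0 < t) (ht' : t ≤ L i) :
    pos L i t ≠ none := by
  unfold pos
  rw [dif_pos ⟨ht, ht'⟩]
  exact Option.some_ne_none _

theorem exists_pos {ι : Type} (L : ι → ℕ) (x : SV L) :
    x = none ∨ ∃ i t, 0 < t ∧ t ≤ L i ∧ x = pos L i t := by
  rcases x with _ | ⟨i, j⟩
  · left; rfl
  · right
    refine ⟨i, j.1 + 1, by omega, by have := j.2; omega, ?_⟩
    unfold pos
    rw [dif_pos ⟨by omega, by have := j.2; omega⟩]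
    rfl

/-- The spider: on every leg `i` the vertices at distances `t` and `t + 1` from the centre are
adjacent, for `t = 0, ..., L i - 1`. -/
def spider {ι : Type} (L : ι → ℕ) : SimpleGraph (SV L) where
  Adj x y := ∃ i t, t < L i ∧
    ((x = pos L i t ∧ y = pos L i (t + 1)) ∨ (x = pos L i (t + 1) ∧ y = pos L i t))
  symm := ⟨by
    rintro x y ⟨i, t, h, h' | h'⟩
    · exact ⟨i, t, h, Or.inr ⟨h'.2, h'.1⟩⟩
    · exact ⟨i, t, h, Or.inl ⟨h'.2, h'.1⟩⟩⟩
  loopless := ⟨by
    rintro x ⟨i, t, h, h' | h'⟩
    · have := pos_inj L (by omega) (by omega) (by omega) (h'.2.symm.trans h'.1)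
      omega
    · have := pos_inj L (by omega) (by omega) (by omega) (h'.1.symm.trans h'.2)
      omega⟩

/-- The edges of leg `i` whose ends have different colours. -/
def bich {ι : Type} (L : ι → ℕ) (χ : SV L → ℕ) (i : ι) : Finset ℕ :=
  (Finset.range (L i)).filter (fun t => χ (pos L i t) ≠ χ (pos L i (t + 1)))

/-- The number of colour changes along leg `i`. -/
def changes {ι : Type} (L : ι → ℕ) (χ : SV L → ℕ) (i : ι) : ℕ := (bich L χ i).card

theorem mem_bich {ι : Type} {L : ι → ℕ} {χ : SV L → ℕ} {i : ι} {t : ℕ} :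
    t ∈ bich L χ i ↔ t < L i ∧ χ (pos L i t) ≠ χ (pos L i (t + 1)) := by
  unfold bich; rw [Finset.mem_filter, Finset.mem_range]

theorem adj_up {ι : Type} {L : ι → ℕ} {i : ι} {t : ℕ} (h : t < L i) :
    (spider L).Adj (pos L i t) (pos L i (t + 1)) := ⟨i, t, h, Or.inl ⟨rfl, rfl⟩⟩

theorem sameComp_color {V : Type*} {G : SimpleGraph V} {χ : V → ℕ} {v w : V}
    (h : SameComp G χ v w) : χ w = χ v := by
  induction h with
  | refl => rfl
  | tail _ h2 ih => rw [← h2.2, ih]

theorem sameComp_tail {V : Type*} {G : SimpleGraph V} {χ : V → ℕ} {v x y : V}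
    (h : SameComp G χ v x) (ha : G.Adj x y) (hc : χ x = χ y) : SameComp G χ v y :=
  Relation.ReflTransGen.tail h ⟨ha, hc⟩

theorem sameComp_symm {V : Type*} {G : SimpleGraph V} {χ : V → ℕ} {v w : V}
    (h : SameComp G χ v w) : SameComp G χ w v := by
  induction h with
  | refl => exact Relation.ReflTransGen.refl
  | tail _ h2 ih => exact Relation.ReflTransGen.head ⟨h2.1.symm, h2.2.symm⟩ ih

/-- In the new colouring an edge is bichromatic iff it was so before and misses the component. -/
theorem edge_recolour {V : Type*} {G : SimpleGraph V} {χ : V → ℕ} {v : V} {c' : ℕ}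
    (h2 : ∀ x, χ x = χ v ∨ χ x = c') {x y : V} (ha : G.Adj x y) :
    recolour G χ v c' x ≠ recolour G χ v c' y ↔
      (χ x ≠ χ y ∧ ¬ SameComp G χ v x ∧ ¬ SameComp G χ v y) := by
  unfold recolour
  by_cases hx : SameComp G χ v x
  · by_cases hy : SameComp G χ v y
    · simp [hx, hy]
    · have hxy : χ x ≠ χ y := fun h => hy (sameComp_tail hx ha h)
      have hxv := sameComp_color hx
      have hyc : χ y = c' := by
        rcases h2 y with h | h
        · exact absurd (hxv.trans h.symm) hxy
        · exact h
      simp [hx, hy, hyc]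
  · by_cases hy : SameComp G χ v y
    · have hxy : χ x ≠ χ y := fun h => hx (sameComp_tail hy ha.symm h.symm)
      have hyv := sameComp_color hy
      have hxc : χ x = c' := by
        rcases h2 x with h | h
        · exact absurd (h.trans hyv.symm) hxy
        · exact h
      simp [hx, hy, hxc]
    · simp [hx, hy]

section walk

variable {ι : Type} {L : ι → ℕ} {χ : SV L → ℕ} {v : SV L}

/-- walking towards the centre -/
theorem walk_down {i : ι} {s r : ℕ} (hs : s ≤ L i) (hrs : r ≤ s)
    (hb : ∀ t ∈ bich L χ i, ¬ (r ≤ t ∧ t < s)) (h : SameComp (spider L) χ v (pos L i s)) :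
    SameComp (spider L) χ v (pos L i r) := by
  obtain ⟨d, rfl⟩ := Nat.exists_eq_add_of_le hrs
  induction d with
  | zero => exact h
  | succ d ih =>
    have hlt : r + d < L i := by omega
    have hmono : χ (pos L i (r + d)) = χ (pos L i (r + d + 1)) := by
      by_contra hne
      exact hb (r + d) (mem_bich.2 ⟨hlt, hne⟩) ⟨by omega, by omega⟩
    exact ih (by omega) (by omega) (fun t ht h' => hb t ht ⟨h'.1, by omega⟩)
      (sameComp_tail h (adj_up hlt).symm hmono.symm)

/-- walking away from the centre -/
theorem walk_up {i : ι} {s r : ℕ} (hr : r ≤ L i) (hsr : s ≤ r)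
    (hb : ∀ t ∈ bich L χ i, ¬ (s ≤ t ∧ t < r)) (h : SameComp (spider L) χ v (pos L i s)) :
    SameComp (spider L) χ v (pos L i r) := by
  obtain ⟨d, rfl⟩ := Nat.exists_eq_add_of_le hsr
  induction d with
  | zero => exact h
  | succ d ih =>
    have hlt : s + d < L i := by omega
    have hmono : χ (pos L i (s + d)) = χ (pos L i (s + d + 1)) := by
      by_contra hne
      exact hb (s + d) (mem_bich.2 ⟨hlt, hne⟩) ⟨by omega, by omega⟩
    exact sameComp_tail (ih (by omega) (by omega) (fun t ht h' => hb t ht ⟨h'.1, by omega⟩))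
      (adj_up hlt) hmono

/-- the component of the centre -/
theorem centre_comp {x : SV L} (h : SameComp (spider L) χ none x) :
    ∀ j s, x = pos L j s → s ≤ L j → ∀ t < s, t ∉ bich L χ j := by
  induction h with
  | refl =>
    intro j s hx hs t ht
    exact absurd hx.symm (pos_ne L (by omega) hs)
  | tail _ h2 ih =>
    rename_i b c
    obtain ⟨⟨i, r, hr, h' | h'⟩, hc⟩ := h2
    · intro j s hx hs t ht
      have hss : 0 < s := by omega
      obtain ⟨e1, e2⟩ := pos_inj L (by omega) (by omega) hs (h'.2.symm.trans hx)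
      subst e1; subst e2
      rcases Nat.lt_or_ge t r with htr | htr
      · exact ih i r h'.1 (by omega) t htr
      · have : t = r := by omega
        subst this
        intro hmem
        apply (mem_bich.1 hmem).2
        rw [← h'.1, ← h'.2]; exact hc
    · intro j s hx hs t ht
      obtain ⟨e1, e2⟩ := pos_inj L (by omega) hs (by omega) (hx.symm.trans h'.2)
      subst e1; subst e2
      exact ih j (s + 1) h'.1 (by omega) t (by omega)

/-- the component of a vertex of leg `i` that does not contain the centre -/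
theorem leg_comp {i : ι} {s0 : ℕ} (h0 : 0 < s0) (hs0 : s0 ≤ L i)
    (hn : ¬ SameComp (spider L) χ (pos L i s0) none) {x : SV L}
    (h : SameComp (spider L) χ (pos L i s0) x) :
    ∃ r, 0 < r ∧ r ≤ L i ∧ x = pos L i r ∧
      ∀ t ∈ bich L χ i, ¬ ((r ≤ t ∧ t < s0) ∨ (s0 ≤ t ∧ t < r)) := by
  induction h with
  | refl => exact ⟨s0, h0, hs0, rfl, fun t _ h' => by omega⟩
  | tail hab h2 ih =>
    rename_i b c
    obtain ⟨r, hr, hrL, hb, hT⟩ := ih
    have hcK : SameComp (spider L) χ (pos L i s0) c := Relation.ReflTransGen.tail hab h2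
    have hcn : c ≠ none := fun h => hn (h ▸ hcK)
    obtain ⟨⟨j, q, hq, h' | h'⟩, hc⟩ := h2
    · obtain ⟨e1, e2⟩ := pos_inj L hr hrL (by omega) (hb.symm.trans h'.1)
      subst e1; subst e2
      refine ⟨r + 1, by omega, by omega, h'.2, fun t ht h3 => ?_⟩
      rcases h3 with h3 | h3
      · exact hT t ht (Or.inl ⟨by omega, h3.2⟩)
      · rcases Nat.lt_or_ge t r with h4 | h4
        · exact hT t ht (Or.inr ⟨h3.1, h4⟩)
        · have : t = r := by omega
          subst this
          apply (mem_bich.1 ht).2
          rw [← h'.1, ← h'.2]; exact hc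
    · obtain ⟨e1, e2⟩ := pos_inj L hr hrL (by omega) (hb.symm.trans h'.1)
      subst e1; subst e2
      have hq0 : 0 < q := by
        rcases Nat.eq_zero_or_pos q with h | h
        · exfalso; apply hcn; rw [h'.2, h, pos_zero]
        · exact h
      refine ⟨q, hq0, by omega, h'.2, fun t ht h3 => ?_⟩
      rcases h3 with h3 | h3
      · rcases Nat.lt_or_ge q t with h4 | h4
        · exact hT t ht (Or.inl ⟨by omega, h3.2⟩)
        · have : t = q := by omega
          subst this
          apply (mem_bich.1 ht).2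
          rw [← h'.1, ← h'.2]; exact hc.symm
      · exact hT t ht (Or.inr ⟨h3.1, by omega⟩)

end walk

end Flag80
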