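import Pool.Agent.Flag80.Bunch

namespace Flag80

/-- The moves on pairs (colouring of `G`, number of free leaves of colour `c` attached at `v`). -/
def GM {V : Type} (G : SimpleGraph V) (v : V) (c : ℕ) (s s' : (V → ℕ) × ℕ) : Prop :=
  (1 ≤ s.2 ∧ s' = (s.1, s.2 - 1)) ∨
  (1 ≤ s.2 ∧ s' = (recolour G s.1 v c, 0)) ∨
  (∃ w u, G.Adj w u ∧ s.1 u ≠ s.1 w ∧ SameComp G s.1 w v ∧ s.1 u = c ∧
    s' = (recolour G s.1 w (s.1 u), 0)) ∨
  (∃ w u, G.Adj w u ∧ s.1 u ≠ s.1 w ∧ ¬ (SameComp G s.1 w v ∧ s.1 u = c) ∧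
    s' = (recolour G s.1 w (s.1 u), s.2))

section gbisim

variable {V : Type} {G : SimpleGraph V} {v : V} {X : ℕ} {c : ℕ} {χ : V ⊕ Fin X → ℕ}

theorem g_absorb (hI : ∀ j, χ (Sum.inr j) = c ∨ χ (Sum.inr j) = χ (Sum.inl v)) {y : V}
    (hK : SameComp G (fun a => χ (Sum.inl a)) y v) :
    bst v X (recolour (bunch G v X) χ (Sum.inl y) c) =
      (recolour G (fun a => χ (Sum.inl a)) y c, 0) := by
  have hK' : SameComp (bunch G v X) χ (Sum.inl y) (Sum.inl v) := bcomp_inl hK
  refine Prod.ext (brecolour_inl _ _) ?_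
  show freeLeaves v X _ = 0
  unfold freeLeaves
  rw [Finset.card_eq_zero, Finset.eq_empty_iff_forall_notMem]
  intro j hj
  apply mem_freeSet.1 hj
  unfold recolour
  rw [if_pos hK']
  rcases hI j with h | h
  · split_ifs
    · rfl
    · exact h
  · rw [if_pos (sameComp_tail hK' (badj_leaf j) h.symm)]

theorem g_keep (hI : ∀ j, χ (Sum.inr j) = c ∨ χ (Sum.inr j) = χ (Sum.inl v)) {y : V} {d : ℕ}
    (hK : SameComp G (fun a => χ (Sum.inl a)) y v) (hd : d ≠ c) :
    bst v X (recolour (bunch G v X) χ (Sum.inl y) d) =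
      (recolour G (fun a => χ (Sum.inl a)) y d, freeLeaves v X χ) := by
  have hK' : SameComp (bunch G v X) χ (Sum.inl y) (Sum.inl v) := bcomp_inl hK
  refine Prod.ext (brecolour_inl _ _) ?_
  show freeLeaves v X _ = freeLeaves v X χ
  unfold freeLeaves
  congr 1
  ext j
  rw [mem_freeSet, mem_freeSet]
  unfold recolour
  rw [if_pos hK']
  by_cases hj : χ (Sum.inr j) = χ (Sum.inl v)
  · rw [if_pos (sameComp_tail hK' (badj_leaf j) hj.symm)]
    simp [hj]
  · have hni : ¬ SameComp (bunch G v X) χ (Sum.inl y) (Sum.inr j) := by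
      intro h
      exact hj ((sameComp_color h).trans (sameComp_color hK').symm)
    rw [if_neg hni]
    rcases hI j with h | h
    · rw [h]
      constructor
      · intro _
        rw [← h]; exact hj
      · intro _
        exact fun h' => hd h'.symm
    · exact absurd h hj

theorem g_inv {χ' : V ⊕ Fin X → ℕ}
    (hI : ∀ j, χ (Sum.inr j) = c ∨ χ (Sum.inr j) = χ (Sum.inl v))
    (hm : Move (bunch G v X) χ χ') :
    ∀ j, χ' (Sum.inr j) = c ∨ χ' (Sum.inr j) = χ' (Sum.inl v) := by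
  obtain ⟨w, u, ha, hne, rfl⟩ := hm
  intro j
  unfold recolour
  by_cases hw : SameComp (bunch G v X) χ w (Sum.inl v)
  · rw [if_pos hw]
    by_cases hj : SameComp (bunch G v X) χ w (Sum.inr j)
    · rw [if_pos hj]; exact Or.inr rfl
    · rw [if_neg hj]
      rcases hI j with h | h
      · exact Or.inl h
      · exact absurd (sameComp_tail hw (badj_leaf j) h.symm) hj
  · rw [if_neg hw]
    by_cases hj : SameComp (bunch G v X) χ w (Sum.inr j)
    · rw [if_pos hj]
      -- the component of `w` contains a leaf and not `v`: `w` is that leaf and `u = v`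
      right
      have hjv : χ (Sum.inr j) ≠ χ (Sum.inl v) := by
        intro h
        exact hw (sameComp_tail hj (badj_leaf j).symm h)
      have hwj : w = Sum.inr j := bleaf_comp hjv (sameComp_symm hj)
      subst hwj
      obtain ⟨y', z, hyz, h1, h3⟩ | ⟨j', h' | h'⟩ := ha
      · exact absurd h1 Sum.inr_ne_inl
      · exact absurd h'.1 Sum.inr_ne_inl
      · rw [h'.2]
    · rw [if_neg hj]; exact hI j

theorem g_move {χ' : V ⊕ Fin X → ℕ}
    (hI : ∀ j, χ (Sum.inr j) = c ∨ χ (Sum.inr j) = χ (Sum.inl v))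
    (hm : Move (bunch G v X) χ χ') : GM G v c (bst v X χ) (bst v X χ') := by
  obtain ⟨w, u, ha, hne, rfl⟩ := hm
  obtain ⟨y, z, hyz, h1, h3⟩ | ⟨j, h' | h'⟩ := ha
  · subst h1; subst h3
    by_cases hK : SameComp G (fun a => χ (Sum.inl a)) y v
    · by_cases hc : χ (Sum.inl z) = c
      · right; right; left
        refine ⟨y, z, hyz, hne, hK, hc, ?_⟩
        rw [hc]
        show _ = (recolour G (fun a => χ (Sum.inl a)) y (χ (Sum.inl z)), 0)
        rw [hc]
        exact g_absorb hI hK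
      · right; right; right
        exact ⟨y, z, hyz, hne, fun h => hc h.2, g_keep hI hK hc⟩
    · right; right; right
      exact ⟨y, z, hyz, hne, fun h => hK h.1, Prod.ext (brecolour_inl _ _) (bfree_core hK)⟩
  · obtain ⟨rfl, rfl⟩ := h'
    right; left
    have hc : χ (Sum.inr j) = c := by
      rcases hI j with h | h
      · exact h
      · exact absurd h hne
    refine ⟨Finset.card_pos.2 ⟨j, mem_freeSet.2 hne⟩, ?_⟩
    rw [hc]
    exact g_absorb hI Relation.ReflTransGen.refl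
  · obtain ⟨rfl, rfl⟩ := h'
    left
    exact ⟨Finset.card_pos.2 ⟨j, mem_freeSet.2 hne.symm⟩, bleaf hne.symm⟩

theorem g_real (hI : ∀ j, χ (Sum.inr j) = c ∨ χ (Sum.inr j) = χ (Sum.inl v))
    {s' : (V → ℕ) × ℕ} (hm : GM G v c (bst v X χ) s') :
    ∃ χ', Move (bunch G v X) χ χ' ∧ bst v X χ' = s' := by
  rcases hm with ⟨hi, rfl⟩ | ⟨hi, rfl⟩ | ⟨w, u, ha, hne, hK, hc, rfl⟩ | ⟨w, u, ha, hne, hn, rfl⟩
  · obtain ⟨j, hj⟩ := Finset.card_pos.1 (show 0 < (freeSet v X χ).card from hi)
    have hj' := mem_freeSet.1 hj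
    exact ⟨_, ⟨Sum.inr j, Sum.inl v, (badj_leaf j).symm, hj'.symm, rfl⟩, bleaf hj'⟩
  · obtain ⟨j, hj⟩ := Finset.card_pos.1 (show 0 < (freeSet v X χ).card from hi)
    have hj' := mem_freeSet.1 hj
    have hc : χ (Sum.inr j) = c := by
      rcases hI j with h | h
      · exact h
      · exact absurd h hj'
    refine ⟨_, ⟨Sum.inl v, Sum.inr j, badj_leaf j, hj', rfl⟩, ?_⟩
    rw [hc]
    exact g_absorb hI Relation.ReflTransGen.refl
  · have hc' : χ (Sum.inl u) = c := hc
    refine ⟨_, ⟨Sum.inl w, Sum.inl u, badj_inl ha, hne, rfl⟩, ?_⟩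
    show _ = (recolour G (fun a => χ (Sum.inl a)) w (χ (Sum.inl u)), 0)
    rw [hc']
    exact g_absorb hI hK
  · refine ⟨_, ⟨Sum.inl w, Sum.inl u, badj_inl ha, hne, rfl⟩, ?_⟩
    by_cases hK : SameComp G (fun a => χ (Sum.inl a)) w v
    · exact g_keep hI hK (fun h => hn ⟨hK, h⟩)
    · exact Prod.ext (brecolour_inl _ _) (bfree_core hK)

end gbisim

/-- The player to move wins the game on pairs. -/
inductive GWins {V : Type} (G : SimpleGraph V) (v : V) (c : ℕ) : (V → ℕ) × ℕ → Prop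
  | intro (s s' : (V → ℕ) × ℕ) : GM G v c s s' →
      (∀ s'', GM G v c s' s'' → GWins G v c s'') → GWins G v c s

section gtransfer

variable {V : Type} {G : SimpleGraph V} {v : V} {X : ℕ} {c : ℕ}

theorem gwins_of_wins {χ : V ⊕ Fin X → ℕ} (h : Wins (bunch G v X) χ)
    (hI : ∀ j, χ (Sum.inr j) = c ∨ χ (Sum.inr j) = χ (Sum.inl v)) :
    GWins G v c (bst v X χ) := by
  induction h with
  | intro χ χ' hm _ ih =>
    have hI' := g_inv hI hm
    refine GWins.intro _ _ (g_move hI hm) (fun s'' hs'' => ?_)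
    obtain ⟨χ'', hm'', rfl⟩ := g_real hI' hs''
    exact ih χ'' hm'' (g_inv hI' hm'')

theorem wins_of_gwins {s : (V → ℕ) × ℕ} (h : GWins G v c s) :
    ∀ χ : V ⊕ Fin X → ℕ, (∀ j, χ (Sum.inr j) = c ∨ χ (Sum.inr j) = χ (Sum.inl v)) →
      bst v X χ = s → Wins (bunch G v X) χ := by
  induction h with
  | intro s s' hA _ ih =>
    intro χ hI hs
    subst hs
    obtain ⟨χ', hm, rfl⟩ := g_real hI hA
    have hI' := g_inv hI hm
    refine Wins.intro _ _ hm (fun χ'' hm'' => ?_)
    exact ih _ (g_move hI' hm'') χ'' (g_inv hI' hm'') rfl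

theorem gwins_iff {χ : V ⊕ Fin X → ℕ}
    (hI : ∀ j, χ (Sum.inr j) = c ∨ χ (Sum.inr j) = χ (Sum.inl v)) :
    Wins (bunch G v X) χ ↔ GWins G v c (bst v X χ) :=
  ⟨fun h => gwins_of_wins h hI, fun h => wins_of_gwins h χ hI rfl⟩

end gtransfer

section grank

variable {V : Type} [Finite V] {G : SimpleGraph V} {v : V} {c : ℕ}

theorem recolour_ne {W : Type} {H : SimpleGraph W} {κ : W → ℕ} {w : W} {d : ℕ} {x y : W}
    (ha : H.Adj x y) (h : recolour H κ w d x ≠ recolour H κ w d y) : κ x ≠ κ y := by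
  intro he
  apply h
  unfold recolour
  by_cases hx : SameComp H κ w x
  · rw [if_pos hx, if_pos (sameComp_tail hx ha he)]
  · by_cases hy : SameComp H κ w y
    · exact absurd (sameComp_tail hy ha.symm he.symm) hx
    · rw [if_neg hx, if_neg hy]; exact he

theorem gbichrom_le (κ : V → ℕ) (w : V) (d : ℕ) :
    bichrom G (recolour G κ w d) ≤ bichrom G κ := by
  apply Set.ncard_le_ncard _ (Set.toFinite _)
  rintro s ⟨x, y, rfl, ha, hne⟩
  exact ⟨x, y, rfl, ha, recolour_ne ha hne⟩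

theorem gbichrom_lt {κ : V → ℕ} {w u : V} (ha : G.Adj w u) (hne : κ u ≠ κ w) :
    bichrom G (recolour G κ w (κ u)) < bichrom G κ := by
  apply Set.ncard_lt_ncard _ (Set.toFinite _)
  rw [Set.ssubset_iff_of_subset]
  · refine ⟨s(w, u), ⟨w, u, rfl, ha, hne.symm⟩, ?_⟩
    have e1 : recolour G κ w (κ u) w = κ u := by
      unfold recolour
      have hr : SameComp G κ w w := Relation.ReflTransGen.refl
      rw [if_pos hr]
    have e2 : recolour G κ w (κ u) u = κ u := by
      unfold recolour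
      split_ifs <;> rfl
    rintro ⟨x, y, hs, hxy, hxy'⟩
    rcases Sym2.eq_iff.1 hs with ⟨h4, h5⟩ | ⟨h4, h5⟩
    · apply hxy'
      rw [← h4, ← h5, e1, e2]
    · apply hxy'
      rw [← h4, ← h5, e1, e2]
  · rintro s ⟨x, y, rfl, ha, hne⟩
    exact ⟨x, y, rfl, ha, recolour_ne ha hne⟩

theorem GM_measure {s s' : (V → ℕ) × ℕ} (h : GM G v c s s') :
    bichrom G s'.1 + s'.2 < bichrom G s.1 + s.2 := by
  rcases h with ⟨h1, rfl⟩ | ⟨h1, rfl⟩ | ⟨w, u, ha, hne, hK, hc, rfl⟩ | ⟨w, u, ha, hne, hn, rfl⟩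
  · show bichrom G s.1 + (s.2 - 1) < _
    omega
  · have := gbichrom_le (G := G) s.1 v c
    show bichrom G (recolour G s.1 v c) + 0 < _
    omega
  · have := gbichrom_lt (κ := s.1) ha hne
    show bichrom G (recolour G s.1 w (s.1 u)) + 0 < _
    omega
  · have := gbichrom_lt (κ := s.1) ha hne
    show bichrom G (recolour G s.1 w (s.1 u)) + s.2 < _
    omega

theorem gdetermined : ∀ (n : ℕ) (s : (V → ℕ) × ℕ), bichrom G s.1 + s.2 = n →
    (¬ GWins G v c s ↔ ∀ s', GM G v c s s' → GWins G v c s') := by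
  intro n
  induction n using Nat.strong_induction_on with
  | _ n ih =>
    intro s hn
    constructor
    · intro hs s' hA
      by_contra hs'
      exact hs (GWins.intro s s' hA ((ih _ (hn ▸ GM_measure hA) s' rfl).1 hs'))
    · rintro hall ⟨_, s', hA, hs'⟩
      exact (ih _ (hn ▸ GM_measure hA) s' rfl).2 hs' (hall s' hA)

theorem gwins_step (s : (V → ℕ) × ℕ) :
    GWins G v c s ↔ ∃ s', GM G v c s s' ∧ ¬ GWins G v c s' := by
  have h := gdetermined (G := G) (v := v) (c := c) _ s rfl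
  constructor
  · intro hs
    by_contra hcon
    apply h.2 _ hs
    intro s' hA
    by_contra hs'
    exact hcon ⟨s', hA, hs'⟩
  · rintro ⟨s', hA, hs'⟩
    by_contra hs
    exact hs' (h.1 hs s' hA)

theorem gloses_iff {X : ℕ} {χ : V ⊕ Fin X → ℕ}
    (hI : ∀ j, χ (Sum.inr j) = c ∨ χ (Sum.inr j) = χ (Sum.inl v)) :
    Loses (bunch G v X) χ ↔ ¬ Wins (bunch G v X) χ := by
  rw [gwins_iff hI, gdetermined (G := G) (v := v) (c := c) _ (bst v X χ) rfl]
  constructor
  · intro h s' hA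
    obtain ⟨χ', hm, rfl⟩ := g_real hI hA
    exact (gwins_iff (g_inv hI hm)).1 (h χ' hm)
  · intro h χ' hm
    exact (gwins_iff (g_inv hI hm)).2 (h _ (g_move hI hm))

theorem gbase {κ : V → ℕ} (hb : bichrom G κ = 0) (x : ℕ) :
    GWins G v c (κ, x) ↔ 1 ≤ x := by
  have none0 : ∀ κ' : V → ℕ, bichrom G κ' = 0 → ¬ GWins G v c (κ', 0) := by
    intro κ' hb' h
    obtain ⟨s', hA, -⟩ := (gwins_step (κ', 0)).1 h
    rcases hA with ⟨h1, -⟩ | ⟨h1, -⟩ | ⟨w, u, ha, hne, -⟩ | ⟨w, u, ha, hne, -⟩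
    · exact absurd h1 (by show ¬ (1 ≤ 0); omega)
    · exact absurd h1 (by show ¬ (1 ≤ 0); omega)
    · exact hne (no_bich hb' ha.symm)
    · exact hne (no_bich hb' ha.symm)
  constructor
  · intro h
    by_contra hx
    have : x = 0 := by omega
    subst this
    exact none0 κ hb h
  · intro hx
    refine (gwins_step (κ, x)).2 ⟨_, Or.inr (Or.inl ⟨hx, rfl⟩), none0 _ ?_⟩
    have := gbichrom_le (G := G) κ v c
    show bichrom G (recolour G κ v c) = 0
    omega

theorem gperiod : ∀ (e : ℕ) (κ : V → ℕ), bichrom G κ = e →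
    ∀ x, e + 1 ≤ x → (GWins G v c (κ, x + 2) ↔ GWins G v c (κ, x)) := by
  intro e
  induction e using Nat.strong_induction_on with
  | _ e ih =>
    intro κ he x hx
    rcases Nat.eq_zero_or_pos e with h0 | h0
    · subst h0
      rw [gbase he, gbase he]
      omega
    · have step : ∀ y, 1 ≤ y → (GWins G v c (κ, y) ↔ ¬ GWins G v c (κ, y - 1) ∨
          ¬ GWins G v c (recolour G κ v c, 0) ∨
          (∃ w u, G.Adj w u ∧ κ u ≠ κ w ∧ SameComp G κ w v ∧ κ u = c ∧
            ¬ GWins G v c (recolour G κ w (κ u), 0)) ∨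
          (∃ w u, G.Adj w u ∧ κ u ≠ κ w ∧ ¬ (SameComp G κ w v ∧ κ u = c) ∧
            ¬ GWins G v c (recolour G κ w (κ u), y))) := by
        intro y hy
        rw [gwins_step (κ, y)]
        constructor
        · rintro ⟨s', hA, hs'⟩
          rcases hA with ⟨-, rfl⟩ | ⟨-, rfl⟩ | ⟨w, u, ha, hne, hK, hc, rfl⟩ |
            ⟨w, u, ha, hne, hn, rfl⟩
          · exact Or.inl hs'
          · exact Or.inr (Or.inl hs')
          · exact Or.inr (Or.inr (Or.inl ⟨w, u, ha, hne, hK, hc, hs'⟩))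
          · exact Or.inr (Or.inr (Or.inr ⟨w, u, ha, hne, hn, hs'⟩))
        · rintro (h | h | ⟨w, u, ha, hne, hK, hc, h⟩ | ⟨w, u, ha, hne, hn, h⟩)
          · exact ⟨_, Or.inl ⟨hy, rfl⟩, h⟩
          · exact ⟨_, Or.inr (Or.inl ⟨hy, rfl⟩), h⟩
          · exact ⟨_, Or.inr (Or.inr (Or.inl ⟨w, u, ha, hne, hK, hc, rfl⟩)), h⟩
          · exact ⟨_, Or.inr (Or.inr (Or.inr ⟨w, u, ha, hne, hn, rfl⟩)), h⟩
      have core : ∀ y, e ≤ y → ∀ w u, G.Adj w u → κ u ≠ κ w →
          (GWins G v c (recolour G κ w (κ u), y + 2) ↔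
            GWins G v c (recolour G κ w (κ u), y)) := by
        intro y hy w u ha hne
        have hlt := gbichrom_lt (κ := κ) ha hne
        exact ih _ (he ▸ hlt) _ rfl y (by omega)
      have persist : ∀ y, e ≤ y → ¬ GWins G v c (κ, y) → ¬ GWins G v c (κ, y + 2) := by
        intro y hy hn h2
        have w1 : GWins G v c (κ, y + 1) := (step (y + 1) (by omega)).2 (Or.inl hn)
        rcases (step (y + 2) (by omega)).1 h2 with h | h | h | ⟨w, u, ha, hne, hv, h⟩
        · exact h w1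
        · exact hn ((step y (by omega)).2 (Or.inr (Or.inl h)))
        · exact hn ((step y (by omega)).2 (Or.inr (Or.inr (Or.inl h))))
        · exact hn ((step y (by omega)).2 (Or.inr (Or.inr (Or.inr ⟨w, u, ha, hne, hv,
            fun h' => h ((core y hy w u ha hne).2 h')⟩))))
      constructor
      · intro h2
        by_contra hn
        exact persist x (by omega) hn h2
      · intro hw
        by_contra hn
        have w1 : GWins G v c (κ, x + 1) := by
          by_contra hcon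
          exact hn ((step (x + 2) (by omega)).2 (Or.inl hcon))
        rcases (step x (by omega)).1 hw with h | h | h | ⟨w, u, ha, hne, hv, h⟩
        · have h4 := persist (x - 1) (by omega) h
          have e1 : x - 1 + 2 = x + 1 := by omega
          rw [e1] at h4
          exact h4 w1
        · exact hn ((step (x + 2) (by omega)).2 (Or.inr (Or.inl h)))
        · exact hn ((step (x + 2) (by omega)).2 (Or.inr (Or.inr (Or.inl h))))
        · exact hn ((step (x + 2) (by omega)).2 (Or.inr (Or.inr (Or.inr ⟨w, u, ha, hne, hv,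
            fun h' => h ((core x (by omega) w u ha hne).1 h')⟩))))

end grank

end Flag80
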