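import Pool.Agent.Flag80.Game

namespace Flag80

/-- The vertex at distance `t` from `v` on the path with `X` new vertices attached at `v`
(for `t = 0` the vertex `v` itself). -/
def pt {V : Type} (v : V) (X t : ℕ) : V ⊕ Fin X :=
  if h : 0 < t ∧ t ≤ X then Sum.inr ⟨t - 1, by omega⟩ else Sum.inl v

theorem pt_zero {V : Type} (v : V) (X : ℕ) : pt v X 0 = Sum.inl v := by
  unfold pt; simp

theorem pt_ne {V : Type} (v : V) {X t : ℕ} (ht : 0 < t) (ht' : t ≤ X) (y : V) :
    pt v X t ≠ Sum.inl y := by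
  unfold pt
  rw [dif_pos ⟨ht, ht'⟩]
  exact Sum.inr_ne_inl

theorem pt_inj {V : Type} (v : V) {X t s : ℕ} (ht : 0 < t) (ht' : t ≤ X) (hs : s ≤ X)
    (h : pt v X t = pt v X s) : t = s := by
  rcases Nat.eq_zero_or_pos s with h0 | h0
  · subst h0
    rw [pt_zero] at h
    exact absurd h (pt_ne v ht ht' v)
  · unfold pt at h
    rw [dif_pos ⟨ht, ht'⟩, dif_pos ⟨h0, hs⟩, Sum.inr.injEq, Fin.mk.injEq] at h
    omega

theorem exists_pt {V : Type} (v : V) {X : ℕ} (x : V ⊕ Fin X) :
    (∃ y, x = Sum.inl y) ∨ ∃ t, 0 < t ∧ t ≤ X ∧ x = pt v X t := by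
  rcases x with y | j
  · left; exact ⟨y, rfl⟩
  · right
    refine ⟨j.1 + 1, by omega, by have := j.2; omega, ?_⟩
    unfold pt
    rw [dif_pos ⟨by omega, by have := j.2; omega⟩]
    rfl

/-- The graph `G` with a path of `X` new vertices attached at the vertex `v`. -/
def pend {V : Type} (G : SimpleGraph V) (v : V) (X : ℕ) : SimpleGraph (V ⊕ Fin X) where
  Adj a b := (∃ y z, G.Adj y z ∧ a = Sum.inl y ∧ b = Sum.inl z) ∨
    ∃ t, t < X ∧ ((a = pt v X t ∧ b = pt v X (t + 1)) ∨ (a = pt v X (t + 1) ∧ b = pt v X t))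
  symm := ⟨by
    rintro a b (⟨y, z, h, ha, hb⟩ | ⟨t, h, h' | h'⟩)
    · exact Or.inl ⟨z, y, h.symm, hb, ha⟩
    · exact Or.inr ⟨t, h, Or.inr ⟨h'.2, h'.1⟩⟩
    · exact Or.inr ⟨t, h, Or.inl ⟨h'.2, h'.1⟩⟩⟩
  loopless := ⟨by
    rintro a (⟨y, z, h, ha, hb⟩ | ⟨t, h, h' | h'⟩)
    · have e : y = z := Sum.inl.inj (ha.symm.trans hb)
      exact G.loopless.irrefl y (by rw [← e] at h; exact h)
    · have := pt_inj v (by omega) (by omega) (by omega) (h'.2.symm.trans h'.1)
      omega
    · have := pt_inj v (by omega) (by omega) (by omega) (h'.1.symm.trans h'.2)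
      omega⟩

/-- The edges of the attached path whose ends have different colours. -/
def pbich {V : Type} (v : V) (X : ℕ) (χ : V ⊕ Fin X → ℕ) : Finset ℕ :=
  (Finset.range X).filter (fun t => χ (pt v X t) ≠ χ (pt v X (t + 1)))

/-- The number of colour changes along the attached path. -/
def pchg {V : Type} (v : V) (X : ℕ) (χ : V ⊕ Fin X → ℕ) : ℕ := (pbich v X χ).card

section comp

variable {V : Type} {G : SimpleGraph V} {v : V} {X : ℕ} {χ : V ⊕ Fin X → ℕ}

theorem mem_pbich {t : ℕ} :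
    t ∈ pbich v X χ ↔ t < X ∧ χ (pt v X t) ≠ χ (pt v X (t + 1)) := by
  unfold pbich; rw [Finset.mem_filter, Finset.mem_range]

theorem padj_up {t : ℕ} (h : t < X) : (pend G v X).Adj (pt v X t) (pt v X (t + 1)) :=
  Or.inr ⟨t, h, Or.inl ⟨rfl, rfl⟩⟩

theorem padj_inl {y z : V} (h : G.Adj y z) : (pend G v X).Adj (Sum.inl y) (Sum.inl z) :=
  Or.inl ⟨y, z, h, rfl, rfl⟩

/-- components of vertices of `G` -/
theorem inl_comp {w : V} {x : V ⊕ Fin X} (h : SameComp (pend G v X) χ (Sum.inl w) x) :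
    (∃ y, x = Sum.inl y ∧ SameComp G (fun a => χ (Sum.inl a)) w y) ∨
    (∃ t, 0 < t ∧ t ≤ X ∧ x = pt v X t ∧ SameComp G (fun a => χ (Sum.inl a)) w v ∧
      ∀ s < t, s ∉ pbich v X χ) := by
  induction h with
  | refl => exact Or.inl ⟨w, rfl, Relation.ReflTransGen.refl⟩
  | tail _ h2 ih =>
    rename_i b c
    rcases ih with ⟨y, hb, hy⟩ | ⟨t, ht, htX, hb, hv, hs⟩
    · obtain ⟨⟨y', z, hyz, h1, h3⟩ | ⟨t, ht, h' | h'⟩, hc⟩ := h2
      · have e : y = y' := Sum.inl.inj (hb.symm.trans h1)
        subst e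
        left
        refine ⟨z, h3, sameComp_tail hy hyz ?_⟩
        show χ (Sum.inl y) = χ (Sum.inl z)
        rw [← h1, ← h3]; exact hc
      · have t0 : t = 0 := by
          by_contra hne
          exact pt_ne v (by omega) (by omega) y (h'.1.symm.trans hb)
        subst t0
        rw [pt_zero] at h'
        have e : y = v := Sum.inl.inj (hb.symm.trans h'.1)
        subst e
        right
        refine ⟨1, by omega, by omega, h'.2, hy, fun s hs hmem => ?_⟩
        have s0 : s = 0 := by omega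
        subst s0
        apply (mem_pbich.1 hmem).2
        rw [pt_zero, ← h'.1, ← h'.2]; exact hc
      · exact absurd (h'.1.symm.trans hb) (pt_ne v (by omega) (by omega) y)
    · obtain ⟨⟨y', z, hyz, h1, h3⟩ | ⟨t', ht', h' | h'⟩, hc⟩ := h2
      · exact absurd (hb.symm.trans h1) (pt_ne v ht htX y')
      · have e : t = t' := pt_inj v ht htX (by omega) (hb.symm.trans h'.1)
        subst e
        right
        refine ⟨t + 1, by omega, by omega, h'.2, hv, fun s hs' hmem => ?_⟩
        rcases Nat.lt_or_ge s t with h5 | h5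
        · exact hs s h5 hmem
        · have e2 : s = t := by omega
          subst e2
          apply (mem_pbich.1 hmem).2
          rw [← h'.1, ← h'.2]; exact hc
      · have e : t = t' + 1 := pt_inj v ht htX (by omega) (hb.symm.trans h'.1)
        subst e
        rcases Nat.eq_zero_or_pos t' with h0 | h0
        · subst h0
          left
          exact ⟨v, by rw [h'.2, pt_zero], hv⟩
        · right
          exact ⟨t', h0, by omega, h'.2, hv, fun s hs' => hs s (by omega)⟩

theorem comp_inl {w y : V} (h : SameComp G (fun a => χ (Sum.inl a)) w y) :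
    SameComp (pend G v X) χ (Sum.inl w) (Sum.inl y) := by
  induction h with
  | refl => exact Relation.ReflTransGen.refl
  | tail _ h2 ih => exact sameComp_tail ih (padj_inl h2.1) h2.2

theorem comp_inl_iff {w y : V} : SameComp (pend G v X) χ (Sum.inl w) (Sum.inl y) ↔
    SameComp G (fun a => χ (Sum.inl a)) w y := by
  constructor
  · intro h
    rcases inl_comp h with ⟨y', h1, h2⟩ | ⟨t, ht, htX, h1, -⟩
    · have e : y = y' := Sum.inl.inj h1
      subst e; exact h2
    · exact absurd h1.symm (pt_ne v ht htX y)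
  · exact comp_inl

/-- components of path vertices that do not contain `v` -/
theorem pt_comp {s0 : ℕ} (h0 : 0 < s0) (hs0 : s0 ≤ X)
    (hn : ¬ SameComp (pend G v X) χ (pt v X s0) (Sum.inl v)) {x : V ⊕ Fin X}
    (h : SameComp (pend G v X) χ (pt v X s0) x) :
    ∃ r, 0 < r ∧ r ≤ X ∧ x = pt v X r ∧
      ∀ t ∈ pbich v X χ, ¬ ((r ≤ t ∧ t < s0) ∨ (s0 ≤ t ∧ t < r)) := by
  induction h with
  | refl => exact ⟨s0, h0, hs0, rfl, fun t _ h' => by omega⟩
  | tail hab h2 ih =>
    rename_i b c
    obtain ⟨r, hr, hrL, hb, hT⟩ := ih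
    have hcK : SameComp (pend G v X) χ (pt v X s0) c := Relation.ReflTransGen.tail hab h2
    have hcn : c ≠ Sum.inl v := fun h => hn (h ▸ hcK)
    obtain ⟨⟨y', z, hyz, h1, h3⟩ | ⟨q, hq, h' | h'⟩, hc⟩ := h2
    · exact absurd (hb.symm.trans h1) (pt_ne v hr hrL y')
    · have e2 := pt_inj v hr hrL (by omega) (hb.symm.trans h'.1)
      subst e2
      refine ⟨r + 1, by omega, by omega, h'.2, fun t ht h3 => ?_⟩
      rcases h3 with h3 | h3
      · exact hT t ht (Or.inl ⟨by omega, h3.2⟩)
      · rcases Nat.lt_or_ge t r with h4 | h4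
        · exact hT t ht (Or.inr ⟨h3.1, h4⟩)
        · have : t = r := by omega
          subst this
          apply (mem_pbich.1 ht).2
          rw [← h'.1, ← h'.2]; exact hc
    · have e2 := pt_inj v hr hrL (by omega) (hb.symm.trans h'.1)
      subst e2
      have hq0 : 0 < q := by
        rcases Nat.eq_zero_or_pos q with h | h
        · exfalso; apply hcn; rw [h'.2, h, pt_zero]
        · exact h
      refine ⟨q, hq0, by omega, h'.2, fun t ht h3 => ?_⟩
      rcases h3 with h3 | h3
      · rcases Nat.lt_or_ge q t with h4 | h4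
        · exact hT t ht (Or.inl ⟨by omega, h3.2⟩)
        · have : t = q := by omega
          subst this
          apply (mem_pbich.1 ht).2
          rw [← h'.1, ← h'.2]; exact hc.symm
      · exact hT t ht (Or.inr ⟨h3.1, by omega⟩)

theorem pwalk_down {w : V ⊕ Fin X} {s r : ℕ} (hs : s ≤ X) (hrs : r ≤ s)
    (hb : ∀ t ∈ pbich v X χ, ¬ (r ≤ t ∧ t < s)) (h : SameComp (pend G v X) χ w (pt v X s)) :
    SameComp (pend G v X) χ w (pt v X r) := by
  obtain ⟨d, rfl⟩ := Nat.exists_eq_add_of_le hrs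
  induction d with
  | zero => exact h
  | succ d ih =>
    have hlt : r + d < X := by omega
    have hmono : χ (pt v X (r + d)) = χ (pt v X (r + d + 1)) := by
      by_contra hne
      exact hb (r + d) (mem_pbich.2 ⟨hlt, hne⟩) ⟨by omega, by omega⟩
    exact ih (by omega) (by omega) (fun t ht h' => hb t ht ⟨h'.1, by omega⟩)
      (sameComp_tail h (padj_up hlt).symm hmono.symm)

theorem pwalk_up {w : V ⊕ Fin X} {s r : ℕ} (hr : r ≤ X) (hsr : s ≤ r)
    (hb : ∀ t ∈ pbich v X χ, ¬ (s ≤ t ∧ t < r)) (h : SameComp (pend G v X) χ w (pt v X s)) :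
    SameComp (pend G v X) χ w (pt v X r) := by
  obtain ⟨d, rfl⟩ := Nat.exists_eq_add_of_le hsr
  induction d with
  | zero => exact h
  | succ d ih =>
    have hlt : s + d < X := by omega
    have hmono : χ (pt v X (s + d)) = χ (pt v X (s + d + 1)) := by
      by_contra hne
      exact hb (s + d) (mem_pbich.2 ⟨hlt, hne⟩) ⟨by omega, by omega⟩
    exact sameComp_tail (ih (by omega) (by omega) (fun t ht h' => hb t ht ⟨h'.1, by omega⟩))
      (padj_up hlt) hmono

end comp

section count

variable {V : Type} {G : SimpleGraph V} {v : V} {X : ℕ} {χ : V ⊕ Fin X → ℕ} {w : V ⊕ Fin X}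
  {c' : ℕ}

theorem mem_pbich_recolour (h2 : ∀ x, χ x = χ w ∨ χ x = c') {t : ℕ} :
    t ∈ pbich v X (recolour (pend G v X) χ w c') ↔ t ∈ pbich v X χ ∧
      ¬ SameComp (pend G v X) χ w (pt v X t) ∧ ¬ SameComp (pend G v X) χ w (pt v X (t + 1)) := by
  rw [mem_pbich, mem_pbich]
  constructor
  · rintro ⟨h, h'⟩
    have := (edge_recolour h2 (padj_up (G := G) h)).1 h'
    exact ⟨⟨h, this.1⟩, this.2.1, this.2.2⟩
  · rintro ⟨⟨h, h'⟩, h3, h4⟩
    exact ⟨h, (edge_recolour h2 (padj_up h)).2 ⟨h', h3, h4⟩⟩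

theorem pchg_centre (h2 : ∀ x, χ x = χ w ∨ χ x = c')
    (hK : SameComp (pend G v X) χ w (Sum.inl v)) :
    pchg v X (recolour (pend G v X) χ w c') = pchg v X χ - 1 := by
  unfold pchg
  rcases (pbich v X χ).eq_empty_or_nonempty with he | hne
  · have : pbich v X (recolour (pend G v X) χ w c') = ∅ := by
      apply Finset.eq_empty_of_forall_notMem
      intro t ht
      have h3 := ((mem_pbich_recolour h2).1 ht).1
      rw [he] at h3
      exact absurd h3 (Finset.notMem_empty _)
    rw [this, he]; rfl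
  · obtain ⟨m, hmem, hmle⟩ : ∃ m ∈ pbich v X χ, ∀ t ∈ pbich v X χ, m ≤ t :=
      ⟨_, Finset.min'_mem _ hne, fun t ht => Finset.min'_le _ _ ht⟩
    have hmL := (mem_pbich.1 hmem).1
    have hKm : SameComp (pend G v X) χ w (pt v X m) := by
      apply pwalk_up (s := 0) (by omega) (by omega)
      · intro t ht h'
        have := hmle t ht
        omega
      · rw [pt_zero]; exact hK
    have key : ∀ s, m < s → s ≤ X → ¬ SameComp (pend G v X) χ w (pt v X s) := by
      intro s hms hsX hk
      have hk' : SameComp (pend G v X) χ (Sum.inl v) (pt v X s) :=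
        Relation.ReflTransGen.trans (sameComp_symm hK) hk
      rcases inl_comp hk' with ⟨y, h1, -⟩ | ⟨t, ht, htX, h1, -, h3⟩
      · exact pt_ne v (by omega) hsX y h1
      · have e := pt_inj v ht htX hsX h1.symm
        subst e
        exact h3 m hms hmem
    have : pbich v X (recolour (pend G v X) χ w c') = (pbich v X χ).erase m := by
      ext t
      rw [mem_pbich_recolour h2, Finset.mem_erase]
      constructor
      · rintro ⟨h, h3, h4⟩
        refine ⟨?_, h⟩
        rintro rfl
        exact h3 hKm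
      · rintro ⟨hne', h⟩
        have hlt : m < t := lt_of_le_of_ne (hmle t h) (Ne.symm hne')
        have htL := (mem_pbich.1 h).1
        exact ⟨h, key t hlt (by omega), key (t + 1) (by omega) (by omega)⟩
    rw [this, Finset.card_erase_of_mem hmem]

/-- a component of `G` that misses `v` -/
theorem pchg_core {y : V} (hn : ¬ SameComp G (fun a => χ (Sum.inl a)) y v)
    (h2 : ∀ x, χ x = χ (Sum.inl y) ∨ χ x = c') :
    pchg v X (recolour (pend G v X) χ (Sum.inl y) c') = pchg v X χ := by
  have key : ∀ s, s ≤ X → ¬ SameComp (pend G v X) χ (Sum.inl y) (pt v X s) := by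
    intro s hs hk
    rcases Nat.eq_zero_or_pos s with h0 | h0
    · subst h0
      rw [pt_zero] at hk
      exact hn (comp_inl_iff.1 hk)
    · rcases inl_comp hk with ⟨z, h1, -⟩ | ⟨t, ht, htX, h1, h3, -⟩
      · exact pt_ne v h0 hs z h1
      · exact hn h3
  unfold pchg
  congr 1
  ext t
  rw [mem_pbich_recolour h2]
  constructor
  · exact fun h => h.1
  · intro h
    have htL := (mem_pbich.1 h).1
    exact ⟨h, key t (by omega), key (t + 1) (by omega)⟩

variable {s0 : ℕ}

theorem pexists_lo (hs0 : s0 ≤ X)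
    (hn : ¬ SameComp (pend G v X) χ (pt v X s0) (Sum.inl v)) :
    ∃ lo ∈ pbich v X χ, lo < s0 ∧ ∀ t ∈ pbich v X χ, t < s0 → t ≤ lo := by
  have hne : ((pbich v X χ).filter (fun t => t < s0)).Nonempty := by
    by_contra hcon
    rw [Finset.not_nonempty_iff_eq_empty] at hcon
    apply hn
    have h3 : SameComp (pend G v X) χ (pt v X s0) (pt v X 0) := by
      apply pwalk_down (s := s0) hs0 (by omega)
      · intro t ht h'
        have : t ∈ (pbich v X χ).filter (fun t => t < s0) := Finset.mem_filter.2 ⟨ht, h'.2⟩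
        rw [hcon] at this
        exact absurd this (Finset.notMem_empty _)
      · exact Relation.ReflTransGen.refl
    rwa [pt_zero] at h3
  refine ⟨_, (Finset.mem_filter.1 (Finset.max'_mem _ hne)).1,
    (Finset.mem_filter.1 (Finset.max'_mem _ hne)).2, fun t ht hts => ?_⟩
  exact Finset.le_max' _ _ (Finset.mem_filter.2 ⟨ht, hts⟩)

theorem pchg_leg_one (h0 : 0 < s0) (hs0 : s0 ≤ X)
    (hn : ¬ SameComp (pend G v X) χ (pt v X s0) (Sum.inl v))
    (h2 : ∀ x, χ x = χ (pt v X s0) ∨ χ x = c') (hex : ∀ t ∈ pbich v X χ, t < s0) :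
    1 ≤ pchg v X χ ∧
      pchg v X (recolour (pend G v X) χ (pt v X s0) c') = pchg v X χ - 1 := by
  obtain ⟨lo, hlo, hlos, hlomax⟩ := pexists_lo hs0 hn
  have hKlo : SameComp (pend G v X) χ (pt v X s0) (pt v X (lo + 1)) := by
    apply pwalk_down (s := s0) hs0 (by omega)
    · intro t ht h'
      have := hlomax t ht h'.2
      omega
    · exact Relation.ReflTransGen.refl
  have hB : pbich v X (recolour (pend G v X) χ (pt v X s0) c') = (pbich v X χ).erase lo := by
    ext t
    rw [mem_pbich_recolour h2, Finset.mem_erase]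
    constructor
    · rintro ⟨h, h3, h4⟩
      refine ⟨?_, h⟩
      rintro rfl
      exact h4 hKlo
    · rintro ⟨hne, h⟩
      have hts := hex t h
      have htlo : t < lo := lt_of_le_of_ne (hlomax t h hts) hne
      refine ⟨h, fun hk => ?_, fun hk => ?_⟩
      · obtain ⟨r, hr, hrL, he, hT⟩ := pt_comp h0 hs0 hn hk
        have e := pt_inj v hr hrL (by omega) he.symm
        subst e
        exact hT _ h (Or.inl ⟨le_refl _, hts⟩)
      · obtain ⟨r, hr, hrL, he, hT⟩ := pt_comp h0 hs0 hn hk
        have e := pt_inj v hr hrL (by omega) he.symm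
        subst e
        exact hT _ hlo (Or.inl ⟨by omega, hlos⟩)
  unfold pchg
  refine ⟨Finset.card_pos.2 ⟨lo, hlo⟩, ?_⟩
  rw [hB, Finset.card_erase_of_mem hlo]

theorem pchg_leg_two (h0 : 0 < s0) (hs0 : s0 ≤ X)
    (hn : ¬ SameComp (pend G v X) χ (pt v X s0) (Sum.inl v))
    (h2 : ∀ x, χ x = χ (pt v X s0) ∨ χ x = c') (hex : ∃ t ∈ pbich v X χ, s0 ≤ t) :
    2 ≤ pchg v X χ ∧
      pchg v X (recolour (pend G v X) χ (pt v X s0) c') = pchg v X χ - 2 := by
  obtain ⟨lo, hlo, hlos, hlomax⟩ := pexists_lo hs0 hn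
  have hKlo : SameComp (pend G v X) χ (pt v X s0) (pt v X (lo + 1)) := by
    apply pwalk_down (s := s0) hs0 (by omega)
    · intro t ht h'
      have := hlomax t ht h'.2
      omega
    · exact Relation.ReflTransGen.refl
  have hne : ((pbich v X χ).filter (fun t => s0 ≤ t)).Nonempty := by
    obtain ⟨t, ht, hts⟩ := hex
    exact ⟨t, Finset.mem_filter.2 ⟨ht, hts⟩⟩
  obtain ⟨hi, hhi, hhis, himin⟩ : ∃ hi ∈ pbich v X χ, s0 ≤ hi ∧
      ∀ t ∈ pbich v X χ, s0 ≤ t → hi ≤ t :=
    ⟨_, (Finset.mem_filter.1 (Finset.min'_mem _ hne)).1,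
      (Finset.mem_filter.1 (Finset.min'_mem _ hne)).2,
      fun t ht hts => Finset.min'_le _ _ (Finset.mem_filter.2 ⟨ht, hts⟩)⟩
  have hhiL := (mem_pbich.1 hhi).1
  have hKhi : SameComp (pend G v X) χ (pt v X s0) (pt v X hi) := by
    apply pwalk_up (s := s0) (by omega) hhis
    · intro t ht h'
      have := himin t ht h'.1
      omega
    · exact Relation.ReflTransGen.refl
  have hB : pbich v X (recolour (pend G v X) χ (pt v X s0) c') =
      ((pbich v X χ).erase lo).erase hi := by
    ext t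
    rw [mem_pbich_recolour h2, Finset.mem_erase, Finset.mem_erase]
    constructor
    · rintro ⟨h, h3, h4⟩
      refine ⟨?_, ?_, h⟩
      · rintro rfl
        exact h3 hKhi
      · rintro rfl
        exact h4 hKlo
    · rintro ⟨hne1, hne2, h⟩
      have htL := (mem_pbich.1 h).1
      refine ⟨h, fun hk => ?_, fun hk => ?_⟩
      · obtain ⟨r, hr, hrL, he, hT⟩ := pt_comp h0 hs0 hn hk
        have e := pt_inj v hr hrL (by omega) he.symm
        subst e
        rcases Nat.lt_or_ge r s0 with h5 | h5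
        · exact hT _ h (Or.inl ⟨le_refl _, h5⟩)
        · have h6 : hi < r := lt_of_le_of_ne (himin _ h h5) (Ne.symm hne1)
          exact hT _ hhi (Or.inr ⟨hhis, h6⟩)
      · obtain ⟨r, hr, hrL, he, hT⟩ := pt_comp h0 hs0 hn hk
        have e := pt_inj v hr hrL (by omega) he.symm
        subst e
        rcases Nat.lt_or_ge t s0 with h5 | h5
        · have h6 : t < lo := lt_of_le_of_ne (hlomax t h h5) hne2
          exact hT _ hlo (Or.inl ⟨by omega, hlos⟩)
        · exact hT _ h (Or.inr ⟨h5, by omega⟩)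
  have hhi' : hi ∈ (pbich v X χ).erase lo := Finset.mem_erase.2 ⟨by omega, hhi⟩
  have hcard : 1 < (pbich v X χ).card := Finset.one_lt_card.2 ⟨lo, hlo, hi, hhi, by omega⟩
  unfold pchg
  refine ⟨hcard, ?_⟩
  rw [hB, Finset.card_erase_of_mem hhi', Finset.card_erase_of_mem hlo]
  omega

end count

end Flag80
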