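import Pool.Agent.Flag80.Pend

namespace Flag80

/-- The moves on pairs (colouring of `G`, number of colour changes on the attached path). -/
def AM {V : Type} (G : SimpleGraph V) (v : V) (c0 c1 : ℕ) (s s' : (V → ℕ) × ℕ) : Prop :=
  (1 ≤ s.2 ∧ s' = (s.1, s.2 - 1)) ∨
  (2 ≤ s.2 ∧ s' = (s.1, s.2 - 2)) ∨
  (∃ w u, G.Adj w u ∧ s.1 u ≠ s.1 w ∧ ¬ SameComp G s.1 w v ∧
    s' = (recolour G s.1 w (s.1 u), s.2)) ∨
  (∃ c', (c' = c0 ∨ c' = c1) ∧ c' ≠ s.1 v ∧
    (1 ≤ s.2 ∨ ∃ w u, G.Adj w u ∧ s.1 u ≠ s.1 w ∧ SameComp G s.1 v w) ∧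
    s' = (recolour G s.1 v c', s.2 - 1))

/-- The pair of a colouring. -/
def st {V : Type} (v : V) (X : ℕ) (χ : V ⊕ Fin X → ℕ) : (V → ℕ) × ℕ :=
  (fun a => χ (Sum.inl a), pchg v X χ)

theorem sameComp_trans {V : Type} {G : SimpleGraph V} {χ : V → ℕ} {x y z : V}
    (h : SameComp G χ x y) (h' : SameComp G χ y z) : SameComp G χ x z :=
  Relation.ReflTransGen.trans h h'

theorem two_other {c0 c1 a b c : ℕ} (ha : a = c0 ∨ a = c1) (hb : b = c0 ∨ b = c1)
    (hc : c = c0 ∨ c = c1) (hab : a ≠ b) : c = b ∨ c = a := by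
  rcases ha with rfl | rfl <;> rcases hb with rfl | rfl <;> rcases hc with rfl | rfl <;> simp_all

section bisim

variable {V : Type} {G : SimpleGraph V} {v : V} {X : ℕ} {c0 c1 : ℕ}

theorem recolour_inl {χ : V ⊕ Fin X → ℕ} (w : V) (c' : ℕ) :
    (fun a => recolour (pend G v X) χ (Sum.inl w) c' (Sum.inl a)) =
      recolour G (fun a => χ (Sum.inl a)) w c' := by
  funext a
  unfold recolour
  by_cases h : SameComp G (fun a => χ (Sum.inl a)) w a
  · rw [if_pos h, if_pos (comp_inl_iff.2 h)]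
  · rw [if_neg h, if_neg (fun h' => h (comp_inl_iff.1 h'))]

theorem recolour_centre {χ : V ⊕ Fin X → ℕ} {w : V ⊕ Fin X} (c' : ℕ)
    (hK : SameComp (pend G v X) χ w (Sum.inl v)) :
    (fun a => recolour (pend G v X) χ w c' (Sum.inl a)) =
      recolour G (fun a => χ (Sum.inl a)) v c' := by
  funext a
  unfold recolour
  by_cases h : SameComp G (fun a => χ (Sum.inl a)) v a
  · rw [if_pos h, if_pos (sameComp_trans hK (comp_inl_iff.2 h))]
  · rw [if_neg h, if_neg (fun h' =>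
      h (comp_inl_iff.1 (sameComp_trans (sameComp_symm hK) h')))]

theorem recolour_path {χ : V ⊕ Fin X → ℕ} {s0 : ℕ} (h0 : 0 < s0) (hs0 : s0 ≤ X) (c' : ℕ)
    (hn : ¬ SameComp (pend G v X) χ (pt v X s0) (Sum.inl v)) :
    (fun a => recolour (pend G v X) χ (pt v X s0) c' (Sum.inl a)) =
      (fun a => χ (Sum.inl a)) := by
  funext a
  unfold recolour
  rw [if_neg]
  intro h
  obtain ⟨r, hr, hrX, h1, -⟩ := pt_comp h0 hs0 hn h
  exact pt_ne v hr hrX a h1.symm

theorem two_recolour {W : Type} {H : SimpleGraph W} {χ : W → ℕ} (hT : ∀ x, χ x = c0 ∨ χ x = c1)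
    (w : W) {c' : ℕ} (hc : c' = c0 ∨ c' = c1) :
    ∀ x, recolour H χ w c' x = c0 ∨ recolour H χ w c' x = c1 := by
  intro x
  unfold recolour
  split_ifs
  · exact hc
  · exact hT x

theorem pbisim_move {χ χ' : V ⊕ Fin X → ℕ} (hT : ∀ x, χ x = c0 ∨ χ x = c1)
    (hm : Move (pend G v X) χ χ') :
    (∀ x, χ' x = c0 ∨ χ' x = c1) ∧ AM G v c0 c1 (st v X χ) (st v X χ') := by
  obtain ⟨w, u, ha, hne, rfl⟩ := hm
  have h2 : ∀ x, χ x = χ w ∨ χ x = χ u := fun x => two_other (hT u) (hT w) (hT x) hne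
  refine ⟨two_recolour hT w (hT u), ?_⟩
  by_cases hK : SameComp (pend G v X) χ w (Sum.inl v)
  · right; right; right
    refine ⟨χ u, hT u, ?_, ?_, ?_⟩
    · show χ u ≠ χ (Sum.inl v)
      rw [sameComp_color hK]; exact hne
    · obtain ⟨y, z, hyz, h1, h3⟩ | ⟨t, ht, h' | h'⟩ := ha
      · right
        subst h1; subst h3
        exact ⟨y, z, hyz, hne, comp_inl_iff.1 (sameComp_symm hK)⟩
      · left
        refine Finset.card_pos.2 ⟨t, mem_pbich.2 ⟨ht, ?_⟩⟩
        rw [← h'.1, ← h'.2]; exact hne.symm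
      · left
        refine Finset.card_pos.2 ⟨t, mem_pbich.2 ⟨ht, ?_⟩⟩
        rw [← h'.1, ← h'.2]; exact hne
    · exact Prod.ext (recolour_centre _ hK) (pchg_centre h2 hK)
  · rcases exists_pt v w with ⟨y, rfl⟩ | ⟨s0, h0, hs0, rfl⟩
    · right; right; left
      have hy : ¬ SameComp G (fun a => χ (Sum.inl a)) y v := fun h => hK (comp_inl_iff.2 h)
      obtain ⟨y', z, hyz, h1, h3⟩ | ⟨t, ht, h' | h'⟩ := ha
      · have e : y = y' := Sum.inl.inj h1
        subst e; subst h3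
        exact ⟨y, z, hyz, hne, hy, Prod.ext (recolour_inl _ _) (pchg_core hy h2)⟩
      · exfalso
        have t0 : t = 0 := by
          by_contra hne'
          exact pt_ne v (by omega) (by omega) y h'.1.symm
        subst t0
        rw [pt_zero] at h'
        have e : y = v := Sum.inl.inj h'.1
        subst e
        exact hy Relation.ReflTransGen.refl
      · exact absurd h'.1.symm (pt_ne v (by omega) (by omega) y)
    · by_cases hex : ∃ t ∈ pbich v X χ, s0 ≤ t
      · right; left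
        have h3 := pchg_leg_two h0 hs0 hK h2 hex
        exact ⟨h3.1, Prod.ext (recolour_path h0 hs0 _ hK) h3.2⟩
      · left
        have hex' : ∀ t ∈ pbich v X χ, t < s0 := by
          intro t ht
          by_contra hcon
          exact hex ⟨t, ht, by omega⟩
        have h3 := pchg_leg_one h0 hs0 hK h2 hex'
        exact ⟨h3.1, Prod.ext (recolour_path h0 hs0 _ hK) h3.2⟩

theorem pbisim_real {χ : V ⊕ Fin X → ℕ} (hT : ∀ x, χ x = c0 ∨ χ x = c1) {s' : (V → ℕ) × ℕ}
    (hm : AM G v c0 c1 (st v X χ) s') :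
    ∃ χ', Move (pend G v X) χ χ' ∧ st v X χ' = s' := by
  have h2 : ∀ w u : V ⊕ Fin X, χ u ≠ χ w → ∀ x, χ x = χ w ∨ χ x = χ u :=
    fun w u hne x => two_other (hT u) (hT w) (hT x) hne
  rcases hm with ⟨hi, rfl⟩ | ⟨hi, rfl⟩ | ⟨w, u, ha, hne, hv, rfl⟩ | ⟨c', hc', hcv, hx, rfl⟩
  · have hne : (pbich v X χ).Nonempty := Finset.card_pos.1 hi
    obtain ⟨m, hm, hmax⟩ : ∃ m ∈ pbich v X χ, ∀ t ∈ pbich v X χ, t ≤ m :=
      ⟨_, Finset.max'_mem _ hne, fun t ht => Finset.le_max' _ _ ht⟩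
    have hmL := (mem_pbich.1 hm).1
    have hc := (mem_pbich.1 hm).2
    have hK : ¬ SameComp (pend G v X) χ (pt v X (m + 1)) (Sum.inl v) := by
      intro hk
      rcases inl_comp (sameComp_symm hk) with ⟨y, h1, -⟩ | ⟨t, ht, htX, h1, -, h3⟩
      · exact pt_ne v (by omega) (by omega) y h1
      · have e := pt_inj v ht htX (by omega) h1.symm
        subst e
        exact h3 m (by omega) hm
    have hex : ∀ t ∈ pbich v X χ, t < m + 1 := fun t ht => by have := hmax t ht; omega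
    have h3 := pchg_leg_one (by omega) (by omega) hK (h2 _ (pt v X m) hc) hex
    exact ⟨_, ⟨pt v X (m + 1), pt v X m, (padj_up hmL).symm, hc, rfl⟩,
      Prod.ext (recolour_path (by omega) (by omega) _ hK) h3.2⟩
  · have hi' : 2 ≤ (pbich v X χ).card := hi
    have hne : (pbich v X χ).Nonempty := Finset.card_pos.1 (by omega)
    obtain ⟨m, hm, hmin⟩ : ∃ m ∈ pbich v X χ, ∀ t ∈ pbich v X χ, m ≤ t :=
      ⟨_, Finset.min'_mem _ hne, fun t ht => Finset.min'_le _ _ ht⟩
    have hmL := (mem_pbich.1 hm).1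
    have hc := (mem_pbich.1 hm).2
    have hK : ¬ SameComp (pend G v X) χ (pt v X (m + 1)) (Sum.inl v) := by
      intro hk
      rcases inl_comp (sameComp_symm hk) with ⟨y, h1, -⟩ | ⟨t, ht, htX, h1, -, h3⟩
      · exact pt_ne v (by omega) (by omega) y h1
      · have e := pt_inj v ht htX (by omega) h1.symm
        subst e
        exact h3 m (by omega) hm
    have hex : ∃ t ∈ pbich v X χ, m + 1 ≤ t := by
      obtain ⟨a, ha, b, hb, hab⟩ := Finset.one_lt_card.1
        (show 1 < (pbich v X χ).card by omega)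
      have h4 := hmin a ha
      have h5 := hmin b hb
      rcases Nat.lt_or_ge m a with h6 | h6
      · exact ⟨a, ha, h6⟩
      · exact ⟨b, hb, by omega⟩
    have h3 := pchg_leg_two (by omega) (by omega) hK (h2 _ (pt v X m) hc) hex
    exact ⟨_, ⟨pt v X (m + 1), pt v X m, (padj_up hmL).symm, hc, rfl⟩,
      Prod.ext (recolour_path (by omega) (by omega) _ hK) h3.2⟩
  · exact ⟨_, ⟨Sum.inl w, Sum.inl u, padj_inl ha, hne, rfl⟩,
      Prod.ext (recolour_inl _ _) (pchg_core hv (h2 _ _ hne))⟩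
  · have hcc : ∀ w u : V ⊕ Fin X, χ w = χ (Sum.inl v) → χ u ≠ χ w → χ u = c' := by
      intro w u hw hu
      have hcv' : c' ≠ χ (Sum.inl v) := hcv
      rcases two_other hc' (hT (Sum.inl v)) (hT u) hcv' with h | h
      · exact absurd (h.trans hw.symm) hu
      · exact h
    rcases hx with hx | ⟨w, u, ha, hne, hv⟩
    · have hne : (pbich v X χ).Nonempty := Finset.card_pos.1 hx
      obtain ⟨m, hm, hmin⟩ : ∃ m ∈ pbich v X χ, ∀ t ∈ pbich v X χ, m ≤ t :=
        ⟨_, Finset.min'_mem _ hne, fun t ht => Finset.min'_le _ _ ht⟩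
      have hmL := (mem_pbich.1 hm).1
      have hc := (mem_pbich.1 hm).2
      have hK : SameComp (pend G v X) χ (pt v X m) (Sum.inl v) := by
        have h3 : SameComp (pend G v X) χ (pt v X m) (pt v X 0) := by
          apply pwalk_down (s := m) (by omega) (by omega)
          · intro t ht h'
            have := hmin t ht
            omega
          · exact Relation.ReflTransGen.refl
        rwa [pt_zero] at h3
      have e : χ (pt v X (m + 1)) = c' := hcc _ _ (sameComp_color hK).symm hc.symm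
      refine ⟨_, ⟨pt v X m, pt v X (m + 1), padj_up hmL, hc.symm, rfl⟩, ?_⟩
      rw [e]
      exact Prod.ext (recolour_centre _ hK) (pchg_centre (e ▸ h2 _ _ hc.symm) hK)
    · have hK : SameComp (pend G v X) χ (Sum.inl w) (Sum.inl v) :=
        sameComp_symm (comp_inl_iff.2 hv)
      have e : χ (Sum.inl u) = c' := hcc (Sum.inl w) _ (sameComp_color hK).symm hne
      refine ⟨_, ⟨Sum.inl w, Sum.inl u, padj_inl ha, hne, rfl⟩, ?_⟩
      rw [e]
      exact Prod.ext (recolour_centre _ hK) (pchg_centre (e ▸ h2 _ _ hne) hK)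

end bisim

/-- The player to move wins the game on pairs. -/
inductive AWins {V : Type} (G : SimpleGraph V) (v : V) (c0 c1 : ℕ) : (V → ℕ) × ℕ → Prop
  | intro (s s' : (V → ℕ) × ℕ) : AM G v c0 c1 s s' →
      (∀ s'', AM G v c0 c1 s' s'' → AWins G v c0 c1 s'') → AWins G v c0 c1 s

section transfer

variable {V : Type} {G : SimpleGraph V} {v : V} {X : ℕ} {c0 c1 : ℕ}

theorem awins_of_wins {χ : V ⊕ Fin X → ℕ} (h : Wins (pend G v X) χ)
    (hT : ∀ x, χ x = c0 ∨ χ x = c1) : AWins G v c0 c1 (st v X χ) := by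
  induction h with
  | intro χ χ' hm _ ih =>
    obtain ⟨hT', hA⟩ := pbisim_move (G := G) hT hm
    refine AWins.intro _ _ hA (fun s'' hs'' => ?_)
    obtain ⟨χ'', hm'', rfl⟩ := pbisim_real hT' hs''
    exact ih χ'' hm'' (pbisim_move (G := G) hT' hm'').1

theorem wins_of_awins {s : (V → ℕ) × ℕ} (h : AWins G v c0 c1 s) :
    ∀ χ : V ⊕ Fin X → ℕ, (∀ x, χ x = c0 ∨ χ x = c1) → st v X χ = s → Wins (pend G v X) χ := by
  induction h with
  | intro s s' hA _ ih =>
    intro χ hT hs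
    subst hs
    obtain ⟨χ', hm, rfl⟩ := pbisim_real hT hA
    have hT' := (pbisim_move (G := G) hT hm).1
    refine Wins.intro _ _ hm (fun χ'' hm'' => ?_)
    obtain ⟨hT'', hA''⟩ := pbisim_move (G := G) hT' hm''
    exact ih _ hA'' χ'' hT'' rfl

theorem wins_iff {χ : V ⊕ Fin X → ℕ} (hT : ∀ x, χ x = c0 ∨ χ x = c1) :
    Wins (pend G v X) χ ↔ AWins G v c0 c1 (st v X χ) :=
  ⟨fun h => awins_of_wins h hT, fun h => wins_of_awins h χ hT rfl⟩

end transfer

/-- The edges of `G` whose ends have different colours. -/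
def bset {V : Type} (G : SimpleGraph V) (κ : V → ℕ) : Set (Sym2 V) :=
  {s | ∃ x y, s = s(x, y) ∧ G.Adj x y ∧ κ x ≠ κ y}

/-- The number of edges of `G` whose ends have different colours. -/
noncomputable def bichrom {V : Type} (G : SimpleGraph V) (κ : V → ℕ) : ℕ := (bset G κ).ncard

section rank

variable {V : Type} [Finite V] {G : SimpleGraph V} {v : V} {c0 c1 : ℕ}

theorem bichrom_le {κ : V → ℕ} {w : V} {c' : ℕ} (h2 : ∀ x, κ x = κ w ∨ κ x = c') :
    bichrom G (recolour G κ w c') ≤ bichrom G κ := by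
  apply Set.ncard_le_ncard _ (Set.toFinite _)
  rintro s ⟨x, y, rfl, ha, hne⟩
  exact ⟨x, y, rfl, ha, ((edge_recolour h2 ha).1 hne).1⟩

theorem bichrom_lt {κ : V → ℕ} {w : V} {c' : ℕ} (h2 : ∀ x, κ x = κ w ∨ κ x = c')
    {a b : V} (hab : G.Adj a b) (hne : κ b ≠ κ a) (hw : SameComp G κ w a) :
    bichrom G (recolour G κ w c') < bichrom G κ := by
  apply Set.ncard_lt_ncard _ (Set.toFinite _)
  rw [Set.ssubset_iff_of_subset]
  · refine ⟨s(a, b), ⟨a, b, rfl, hab, hne.symm⟩, ?_⟩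
    rintro ⟨x, y, hs, ha, hxy⟩
    have h3 := (edge_recolour h2 ha).1 hxy
    rcases Sym2.eq_iff.1 hs with ⟨h4, h5⟩ | ⟨h4, h5⟩
    · exact h3.2.1 (h4 ▸ hw)
    · exact h3.2.2 (h4 ▸ hw)
  · rintro s ⟨x, y, rfl, ha, hne⟩
    exact ⟨x, y, rfl, ha, ((edge_recolour h2 ha).1 hne).1⟩

theorem no_bich {κ : V → ℕ} (h : bichrom G κ = 0) {a b : V} (hab : G.Adj a b) : κ a = κ b := by
  by_contra hne
  have h3 : (bset G κ).ncard = 0 := h
  rw [Set.ncard_eq_zero (Set.toFinite _)] at h3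
  have : s(a, b) ∈ bset G κ := ⟨a, b, rfl, hab, hne⟩
  rw [h3] at this
  exact this

/-- in a connected graph with a bichromatic edge every component has a boundary edge -/
theorem exists_boundary (hG : G.Connected) {κ : V → ℕ} (h : 1 ≤ bichrom G κ) (w : V) :
    ∃ a b, G.Adj a b ∧ κ b ≠ κ a ∧ SameComp G κ w a := by
  by_contra hcon
  have hcon' : ∀ a b, G.Adj a b → SameComp G κ w a → κ a = κ b := by
    intro a b hab hw
    by_contra hne
    exact hcon ⟨a, b, hab, fun h => hne h.symm, hw⟩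
  have all : ∀ x, SameComp G κ w x := by
    intro x
    have hr : Relation.ReflTransGen G.Adj w x :=
      (SimpleGraph.reachable_iff_reflTransGen w x).1 (hG.preconnected w x)
    induction hr with
    | refl => exact Relation.ReflTransGen.refl
    | tail _ h2 ih => exact sameComp_tail ih h2 (hcon' _ _ h2 ih)
  have h0 : bset G κ = ∅ := by
    rw [Set.eq_empty_iff_forall_notMem]
    rintro s ⟨x, y, -, hxy, hne⟩
    exact hne (hcon' x y hxy (all x))
  have h3 : (bset G κ).ncard = bichrom G κ := rfl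
  rw [h0, Set.ncard_empty] at h3
  omega

theorem AM_measure {s s' : (V → ℕ) × ℕ} (hT : ∀ x, s.1 x = c0 ∨ s.1 x = c1)
    (h : AM G v c0 c1 s s') :
    (∀ x, s'.1 x = c0 ∨ s'.1 x = c1) ∧ bichrom G s'.1 + s'.2 < bichrom G s.1 + s.2 := by
  rcases h with ⟨h1, rfl⟩ | ⟨h1, rfl⟩ | ⟨w, u, ha, hne, hv, rfl⟩ | ⟨c', hc', hcv, hx, rfl⟩
  · exact ⟨hT, by show bichrom G s.1 + (s.2 - 1) < _; omega⟩
  · exact ⟨hT, by show bichrom G s.1 + (s.2 - 2) < _; omega⟩
  · refine ⟨two_recolour hT w (hT u), ?_⟩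
    have := bichrom_lt (G := G) (w := w) (fun x => two_other (hT u) (hT w) (hT x) hne) ha hne
      Relation.ReflTransGen.refl
    show bichrom G (recolour G s.1 w (s.1 u)) + s.2 < _
    omega
  · refine ⟨two_recolour hT v hc', ?_⟩
    have h2 : ∀ x, s.1 x = s.1 v ∨ s.1 x = c' := fun x => two_other hc' (hT v) (hT x) hcv
    show bichrom G (recolour G s.1 v c') + (s.2 - 1) < _
    rcases hx with hx | ⟨w, u, ha, hne, hw⟩
    · have := bichrom_le (G := G) h2
      omega
    · have := bichrom_lt (G := G) h2 ha hne hw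
      omega

/-- The game on pairs is determined. -/
theorem determined : ∀ (n : ℕ) (s : (V → ℕ) × ℕ), (∀ x, s.1 x = c0 ∨ s.1 x = c1) →
    bichrom G s.1 + s.2 = n →
    (¬ AWins G v c0 c1 s ↔ ∀ s', AM G v c0 c1 s s' → AWins G v c0 c1 s') := by
  intro n
  induction n using Nat.strong_induction_on with
  | _ n ih =>
    intro s hT hn
    constructor
    · intro hs s' hA
      obtain ⟨hT', hlt⟩ := AM_measure hT hA
      by_contra hs'
      exact hs (AWins.intro s s' hA ((ih _ (hn ▸ hlt) s' hT' rfl).1 hs'))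
    · rintro hall ⟨_, s', hA, hs'⟩
      obtain ⟨hT', hlt⟩ := AM_measure hT hA
      exact (ih _ (hn ▸ hlt) s' hT' rfl).2 hs' (hall s' hA)

theorem awins_iff {s : (V → ℕ) × ℕ} (hT : ∀ x, s.1 x = c0 ∨ s.1 x = c1) :
    AWins G v c0 c1 s ↔ ∃ s', AM G v c0 c1 s s' ∧ ¬ AWins G v c0 c1 s' := by
  have h := determined (G := G) (v := v) (c0 := c0) (c1 := c1) _ s hT rfl
  constructor
  · intro hs
    by_contra hcon
    push_neg at hcon
    exact h.2 hcon hs
  · rintro ⟨s', hA, hs'⟩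
    by_contra hs
    exact hs' (h.1 hs s' hA)

end rank

end Flag80
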