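import Pool.Agent.Flag80.PendGame

namespace Flag80

section period

variable {V : Type} [Finite V] {G : SimpleGraph V} {v : V} {c0 c1 : ℕ}

/-- Some move inside `G` leads to a position that the player to move loses. -/
def CoreAns (G : SimpleGraph V) (v : V) (c0 c1 : ℕ) (κ : V → ℕ) (x : ℕ) : Prop :=
  (∃ w u, G.Adj w u ∧ κ u ≠ κ w ∧ ¬ SameComp G κ w v ∧
    ¬ AWins G v c0 c1 (recolour G κ w (κ u), x)) ∨
  (∃ c', (c' = c0 ∨ c' = c1) ∧ c' ≠ κ v ∧ ¬ AWins G v c0 c1 (recolour G κ v c', x - 1))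

theorem awins_step {κ : V → ℕ} (hT : ∀ y, κ y = c0 ∨ κ y = c1) {x : ℕ} (hx : 1 ≤ x) :
    AWins G v c0 c1 (κ, x) ↔ ¬ AWins G v c0 c1 (κ, x - 1) ∨
      (2 ≤ x ∧ ¬ AWins G v c0 c1 (κ, x - 2)) ∨ CoreAns G v c0 c1 κ x := by
  rw [awins_iff (s := (κ, x)) hT]
  constructor
  · rintro ⟨s', hA, hs'⟩
    rcases hA with ⟨h1, rfl⟩ | ⟨h1, rfl⟩ | ⟨w, u, ha, hne, hv, rfl⟩ | ⟨c', hc', hcv, -, rfl⟩
    · exact Or.inl hs'
    · exact Or.inr (Or.inl ⟨h1, hs'⟩)
    · exact Or.inr (Or.inr (Or.inl ⟨w, u, ha, hne, hv, hs'⟩))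
    · exact Or.inr (Or.inr (Or.inr ⟨c', hc', hcv, hs'⟩))
  · rintro (h | ⟨h1, h⟩ | ⟨w, u, ha, hne, hv, h⟩ | ⟨c', hc', hcv, h⟩)
    · exact ⟨_, Or.inl ⟨hx, rfl⟩, h⟩
    · exact ⟨_, Or.inr (Or.inl ⟨h1, rfl⟩), h⟩
    · exact ⟨_, Or.inr (Or.inr (Or.inl ⟨w, u, ha, hne, hv, rfl⟩)), h⟩
    · exact ⟨_, Or.inr (Or.inr (Or.inr ⟨c', hc', hcv, Or.inl hx, rfl⟩)), h⟩

/-- a path: the player to move loses iff the number of colour changes is divisible by 3 -/
theorem base : ∀ (x : ℕ) (κ : V → ℕ), (∀ y, κ y = c0 ∨ κ y = c1) → bichrom G κ = 0 →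
    (c0 ≠ c1 ∨ x = 0) → (AWins G v c0 c1 (κ, x) ↔ ¬ 3 ∣ x) := by
  intro x
  induction x using Nat.strong_induction_on with
  | _ x ih =>
    intro κ hT hb hcc
    rw [awins_iff (s := (κ, x)) hT]
    have hcc' : ∀ y, (c0 ≠ c1 ∨ y = 0) ∨ 1 ≤ x ∨ x = 0 := fun y => by omega
    constructor
    · rintro ⟨s', hA, hs'⟩ hd
      rcases hA with ⟨h1, rfl⟩ | ⟨h1, rfl⟩ | ⟨w, u, ha, hne, hv, rfl⟩ | ⟨c', hc', hcv, hx, rfl⟩
      · have h1' : 1 ≤ x := h1
        exact hs' ((ih (x - 1) (by omega) κ hT hb (by omega)).2 (by omega))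
      · have h1' : 2 ≤ x := h1
        exact hs' ((ih (x - 2) (by omega) κ hT hb (by omega)).2 (by omega))
      · exact hne (no_bich hb ha.symm)
      · have hx' : 1 ≤ x := by
          rcases hx with hx | ⟨w, u, ha, hne, -⟩
          · exact hx
          · exact absurd (no_bich hb ha.symm) hne
        have hb' : bichrom G (recolour G κ v c') = 0 := by
          have := bichrom_le (G := G) (κ := κ) (w := v) (c' := c')
            (fun y => two_other hc' (hT v) (hT y) hcv)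
          omega
        exact hs' ((ih (x - 1) (by omega) _ (two_recolour hT v hc') hb' (by omega)).2 (by omega))
    · intro hd
      rcases (by omega : (1 ≤ x ∧ 3 ∣ x - 1) ∨ (2 ≤ x ∧ 3 ∣ x - 2)) with ⟨h1, h2⟩ | ⟨h1, h2⟩
      · refine ⟨(κ, x - 1), Or.inl ⟨h1, rfl⟩, fun h => ?_⟩
        exact (ih (x - 1) (by omega) κ hT hb (by omega)).1 h h2
      · refine ⟨(κ, x - 2), Or.inr (Or.inl ⟨h1, rfl⟩), fun h => ?_⟩
        exact (ih (x - 2) (by omega) κ hT hb (by omega)).1 h h2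

theorem coreAns_period (hG : G.Connected) {κ : V → ℕ} (hT : ∀ y, κ y = c0 ∨ κ y = c1)
    (he : 1 ≤ bichrom G κ)
    (ih : ∀ κ' : V → ℕ, (∀ y, κ' y = c0 ∨ κ' y = c1) → bichrom G κ' < bichrom G κ →
      ∀ x, 3 * bichrom G κ' ≤ x → (AWins G v c0 c1 (κ', x + 3) ↔ AWins G v c0 c1 (κ', x)))
    {x : ℕ} (hx : 3 * bichrom G κ ≤ x + 2) (hx1 : 1 ≤ x) :
    CoreAns G v c0 c1 κ (x + 3) ↔ CoreAns G v c0 c1 κ x := by
  have hcore : ∀ w u, G.Adj w u → κ u ≠ κ w →
      (AWins G v c0 c1 (recolour G κ w (κ u), x + 3) ↔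
        AWins G v c0 c1 (recolour G κ w (κ u), x)) := by
    intro w u ha hne
    have hlt := bichrom_lt (G := G) (w := w) (c' := κ u)
      (fun y => two_other (hT u) (hT w) (hT y) hne) ha hne Relation.ReflTransGen.refl
    exact ih _ (two_recolour hT w (hT u)) hlt x (by omega)
  have hcentre : ∀ c', (c' = c0 ∨ c' = c1) → c' ≠ κ v →
      (AWins G v c0 c1 (recolour G κ v c', x + 3 - 1) ↔
        AWins G v c0 c1 (recolour G κ v c', x - 1)) := by
    intro c' hc' hcv
    obtain ⟨a, b, hab, hne, hva⟩ := exists_boundary hG he v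
    have hlt := bichrom_lt (G := G) (w := v) (c' := c')
      (fun y => two_other hc' (hT v) (hT y) hcv) hab hne hva
    have e : x + 3 - 1 = (x - 1) + 3 := by omega
    rw [e]
    exact ih _ (two_recolour hT v hc') hlt (x - 1) (by omega)
  constructor
  · rintro (⟨w, u, ha, hne, hv, h⟩ | ⟨c', hc', hcv, h⟩)
    · exact Or.inl ⟨w, u, ha, hne, hv, fun h' => h ((hcore w u ha hne).2 h')⟩
    · exact Or.inr ⟨c', hc', hcv, fun h' => h ((hcentre c' hc' hcv).2 h')⟩
  · rintro (⟨w, u, ha, hne, hv, h⟩ | ⟨c', hc', hcv, h⟩)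
    · exact Or.inl ⟨w, u, ha, hne, hv, fun h' => h ((hcore w u ha hne).1 h')⟩
    · exact Or.inr ⟨c', hc', hcv, fun h' => h ((hcentre c' hc' hcv).1 h')⟩

theorem period (hG : G.Connected) (hcc : c0 ≠ c1) : ∀ (e : ℕ) (κ : V → ℕ),
    (∀ y, κ y = c0 ∨ κ y = c1) → bichrom G κ = e →
    ∀ x, 3 * e ≤ x → (AWins G v c0 c1 (κ, x + 3) ↔ AWins G v c0 c1 (κ, x)) := by
  intro e
  induction e using Nat.strong_induction_on with
  | _ e ih =>
    intro κ hT he x hx
    rcases Nat.eq_zero_or_pos e with h0 | h0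
    · subst h0
      rw [base _ κ hT he (Or.inl hcc), base _ κ hT he (Or.inl hcc)]
      omega
    · have ih' : ∀ κ' : V → ℕ, (∀ y, κ' y = c0 ∨ κ' y = c1) → bichrom G κ' < bichrom G κ →
          ∀ x, 3 * bichrom G κ' ≤ x →
          (AWins G v c0 c1 (κ', x + 3) ↔ AWins G v c0 c1 (κ', x)) :=
        fun κ' hT' hlt x hx => ih _ (he ▸ hlt) κ' hT' rfl x hx
      have hper : ∀ y, 3 * e ≤ y + 2 → 1 ≤ y →
          (CoreAns G v c0 c1 κ (y + 3) ↔ CoreAns G v c0 c1 κ y) :=
        fun y hy hy1 => coreAns_period hG hT (by omega) ih' (by omega) hy1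
      have persist : ∀ y, 3 * e ≤ y + 2 → 1 ≤ y → ¬ AWins G v c0 c1 (κ, y) →
          ¬ AWins G v c0 c1 (κ, y + 3) := by
        intro y hy hy1 hn h3
        have hB : ¬ CoreAns G v c0 c1 κ y := fun hB =>
          hn ((awins_step hT hy1).2 (Or.inr (Or.inr hB)))
        have w1 : AWins G v c0 c1 (κ, y + 1) :=
          (awins_step hT (by omega)).2 (Or.inl (by simpa using hn))
        have w2 : AWins G v c0 c1 (κ, y + 2) :=
          (awins_step hT (by omega)).2 (Or.inr (Or.inl ⟨by omega, by simpa using hn⟩))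
        rcases (awins_step hT (by omega)).1 h3 with h | ⟨-, h⟩ | h
        · exact h w2
        · exact h w1
        · exact hB ((hper y hy hy1).1 h)
      constructor
      · intro h3
        by_contra hn
        exact persist x (by omega) (by omega) hn h3
      · intro hw
        by_contra hn
        have w1 : AWins G v c0 c1 (κ, x + 1) := by
          by_contra hcon
          exact hn ((awins_step hT (by omega)).2 (Or.inr (Or.inl ⟨by omega, hcon⟩)))
        have w2 : AWins G v c0 c1 (κ, x + 2) := by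
          by_contra hcon
          exact hn ((awins_step hT (by omega)).2 (Or.inl hcon))
        have hB : ¬ CoreAns G v c0 c1 κ x := by
          intro hB
          exact hn ((awins_step hT (by omega)).2
            (Or.inr (Or.inr ((hper x (by omega) (by omega)).2 hB))))
        rcases (awins_step hT (by omega)).1 hw with h | ⟨-, h⟩ | h
        · have := persist (x - 1) (by omega) (by omega) h
          have e1 : x - 1 + 3 = x + 2 := by omega
          rw [e1] at this
          exact this w2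
        · have := persist (x - 2) (by omega) (by omega) h
          have e1 : x - 2 + 3 = x + 1 := by omega
          rw [e1] at this
          exact this w1
        · exact hB h

end period

section final

variable {V : Type} [Finite V] {G : SimpleGraph V} {v : V} {X : ℕ} {c0 c1 : ℕ}

/-- the game on the graph is determined -/
theorem loses_iff {χ : V ⊕ Fin X → ℕ} (hT : ∀ x, χ x = c0 ∨ χ x = c1) :
    Loses (pend G v X) χ ↔ ¬ Wins (pend G v X) χ := by
  rw [wins_iff hT, determined (G := G) (v := v) (c0 := c0) (c1 := c1) _ (st v X χ)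
    (fun x => hT (Sum.inl x)) rfl]
  constructor
  · intro h s' hA
    obtain ⟨χ', hm, rfl⟩ := pbisim_real hT hA
    exact (wins_iff (pbisim_move (G := G) hT hm).1).1 (h χ' hm)
  · intro h χ' hm
    obtain ⟨hT', hA⟩ := pbisim_move (G := G) hT hm
    exact (wins_iff hT').2 (h _ hA)

end final

end Flag80
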